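import Pool.Agent.H246K3.Stubs

/-!
# Connected sums over an arbitrary class of knots: definitions and statements

This is the several-blocks part of the development `Pool/Agent/H246K3` with the class of the unknot
replaced by an arbitrary class `𝒬` of (oriented) knot types.
-/

set_option autoImplicit false

namespace KN.KQ

open Finset Filter Topology
open scoped Classical

noncomputable section

/-- `𝒬` is a class of oriented knot types -/
def TC (𝒬 : List V → Prop) : Prop := ∀ l l' : List V, Same l l' → 𝒬 l → 𝒬 l'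

/-- words with blocks: the blocks have room, without blocks the polygon is in the class -/
structure VaZ (𝒬 : List V → Prop) (T L : ℕ) (v : ℕ → List Dir) (W : List Sz) : Prop where
  u : 𝒬 (vl (BZ W))
  base : SAP (BZ W)
  ext : SAP (EZ T v W)
  room : ∀ (A B : List Sz) (i : ℕ) (d f : Dir), W = A ++ .bl i d f :: B →
    perp d f ∧ RmD T L d f (EZ T v A ++ f :: EZ T v B) (pos (EZ T v B))

/-- valid words of length `n` with one block of each type `0, ..., N - 1` -/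
def VZ (𝒬 : List V → Prop) (T L : ℕ) (v : ℕ → List Dir) (N n : ℕ) : Finset (List Sz) :=
  (WZ N n).filter (fun W => (lab W).Perm (List.range N) ∧ VaZ 𝒬 T L v W)

/-- Y1: membership -/
def Y_mem (𝒬 : List V → Prop) : Prop := ∀ (T L : ℕ) (v : ℕ → List Dir) (N n : ℕ) (W : List Sz),
  W ∈ VZ 𝒬 T L v N n ↔ W.length = n ∧ (lab W).Perm (List.range N) ∧ VaZ 𝒬 T L v W

/-- Y3: rotations -/
def Y_rot (𝒬 : List V → Prop) : Prop := ∀ (T L B : ℕ) (v : ℕ → List Dir), SmB L B v → ∀ W : List Sz, VaZ 𝒬 T L v W →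
  ∀ d f : Dir, perp d f → VaZ 𝒬 T L v (W.map (rZ d f))

/-- Y5: flips -/
def Y_flip (𝒬 : List V → Prop) : Prop := ∀ (T L B : ℕ) (v : ℕ → List Dir), SmB L B v → ∀ (A B' : List Sz) (a b : Dir),
  VaZ 𝒬 T L v (A ++ .lt a :: .lt b :: B') → perp a b →
  pos (EZ T v B') + vec a ∉ path (EZ T v (A ++ .lt a :: .lt b :: B')) →
  faZ T v (T + L + 5) (A ++ .lt a :: .lt b :: B') (pos (EZ T v B')) →
  VaZ 𝒬 T L v (A ++ .lt b :: .lt a :: B')

/-- Y6: insertion of a block -/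
def Y_ins (𝒬 : List V → Prop) : Prop := ∀ (T L B : ℕ) (v : ℕ → List Dir), SmB L B v → ∀ (A B' : List Sz) (i : ℕ),
  VaZ 𝒬 T L v (A ++ .lt .zp :: B') → Spot T L (EZ T v A) (EZ T v B') →
  faZ T v (raZ T L B - 20) (A ++ .lt .zp :: B') (pos (EZ T v B')) →
  VaZ 𝒬 T L v (A ++ .bl i .xp .zp :: B')

/-- Y7: a contact far from the blocks gives a place for a new block -/
def Y_con (𝒬 : List V → Prop) : Prop := ∀ (T L B R : ℕ) (v : ℕ → List Dir), SmB L B v → LLat T L R → ∀ W : List Sz,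
  VaZ 𝒬 T L v W → ∀ x N : Z3, Cont R {p | p ∈ path (EZ T v W)} x N → ¬ near 6 x 0 →
  faZ T v (raZ T L B) W x → ∀ i : ℕ, ∃ (d f : Dir) (A B' : List Sz), perp d f ∧
    VaZ 𝒬 T L v (A ++ .bl i .xp .zp :: B') ∧ near 6 (pos (EZ T v B')) (Rp d f x) ∧ RlZ W d f A B'

/-- Y8: counting -/
def Y_cnt (𝒬 : List V → Prop) : Prop := ∀ (T L B R : ℕ) (v : ℕ → List Dir), SmB L B v → LLat T L R → 1 ≤ R →
  ∀ N : ℕ, ∃ c : ℝ, 0 < c ∧ ∀ᶠ n : ℕ in atTop,
    c * (n : ℝ) ^ (2 / 3 : ℝ) * (VZ 𝒬 T L v N n).card ≤ (VZ 𝒬 T L v (N + 1) n).card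

/-- Y9: no blocks -/
def Y_zero (𝒬 : List V → Prop) : Prop := ∀ (T L : ℕ) (v : ℕ → List Dir) (n : ℕ), (VZ 𝒬 T L v 0 n).card = a (fun w => 𝒬 (vl w)) n

/-- connected sums of a polygon of the class `𝒬` and `ks 0, ..., ks (N - 1)` -/
def SumsC (𝒬 : List V → Prop) (ks : ℕ → List V) : ℕ → List V → Prop
  | 0 => 𝒬
  | N + 1 => fun l => ∃ l1 v l2 : List Dir, Facing l1 v l2 ∧ SumsC 𝒬 ks N (vl (l1 ++ .zp :: l2)) ∧
      Same (vl (.zm :: v)) (ks N) ∧ Same l (vl (join l1 v l2))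

/-- no polygon of the class `𝒬` is a connected sum of a polygon and `M` polygons, each of them one
of `ks 0, ..., ks (N - 1)` -/
def NoM (𝒬 : List V → Prop) (ks : ℕ → List V) (N M : ℕ) : Prop :=
  ∀ σ : ℕ → ℕ, (∀ j < M, σ j < N) → ∀ l : List V, 𝒬 l →
    ¬ SumsC (fun _ => True) (fun j => ks (σ j)) M l

/-- Y11: bounded multiplicity -/
def Y_mul (𝒬 : List V → Prop) : Prop := ∀ (ks : ℕ → List V) (N M : ℕ), NoM 𝒬 ks N M → ∀ (T L B : ℕ)
  (v : ℕ → List Dir), SmB L B v → (∀ i, Same (vl (.zm :: v i)) (ks i)) → ∃ C : ℕ,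
  ∀ (n : ℕ) (w : List Dir), ((VZ 𝒬 T L v N n).filter (fun W => EZ T v W = w)).card ≤ C

/-- Y14: the knot type of a word with blocks -/
def Y_type (𝒬 : List V → Prop) : Prop := ∀ (ks : ℕ → List V) (T L B : ℕ) (v : ℕ → List Dir), SmB L B v →
  ∀ (N : ℕ), (∀ i < N, Same (vl (.zm :: v i)) (ks i)) → ∀ (W : List Sz), (lab W).Perm (List.range N) →
  VaZ 𝒬 T L v W → SumsC 𝒬 ks N (vl (EZ T v W))

end

end KN.KQ
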