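import Pool.Agent.TH945.KQ.FIN

/-!
# Consequences for single knots and for the exponents
-/

set_option autoImplicit false

namespace KN.KQ

open Finset Filter Topology
open scoped Classical

variable {𝒬 : List V → Prop}

/-- comparison of the power laws -/
theorem exponents {f g : ℕ → ℝ} {s c A A' α α' μ μ' : ℝ} {r : ℕ} (hc : 0 < c) (hA : 0 < A)
    (hμ : 0 < μ) (hμ' : 0 < μ')
    (H : ∀ᶠ j : ℕ in atTop, c * (2 * j : ℝ) ^ s * f j ≤ g (j + r))
    (hf : Tendsto (fun j : ℕ => f j / ((2 * j : ℝ) ^ (α - 3) * μ ^ (2 * j))) atTop (𝓝 A))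
    (hg : Tendsto (fun j : ℕ => g j / ((2 * j : ℝ) ^ (α' - 3) * μ' ^ (2 * j))) atTop (𝓝 A')) :
    μ ≤ μ' ∧ (μ = μ' → α + s ≤ α') := by
  -- the comparison
  have key : ∃ C : ℝ, 0 < C ∧ ∀ᶠ j : ℕ in atTop,
      (μ / μ') ^ (2 * j) ≤ C * (2 * j : ℝ) ^ (α' - α - s) := by
    have h1 : ∀ᶠ j : ℕ in atTop, A / 2 < f j / ((2 * j : ℝ) ^ (α - 3) * μ ^ (2 * j)) :=
      hf.eventually (lt_mem_nhds (by linarith))
    have h2 : ∀ᶠ j : ℕ in atTop,
        g (j + r) / ((2 * ((j + r : ℕ) : ℝ)) ^ (α' - 3) * μ' ^ (2 * (j + r))) < |A'| + 1 :=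
      (hg.comp (tendsto_add_atTop_nat r)).eventually (gt_mem_nhds (by
        have := le_abs_self A'; linarith))
    refine ⟨(|A'| + 1) * 2 ^ |α' - 3| * μ' ^ (2 * r) / (c * (A / 2)), by positivity, ?_⟩
    filter_upwards [H, h1, h2, eventually_ge_atTop (r + 1)] with j hH h1 h2 hj
    have hj0 : (0 : ℝ) < j := by
      have : 0 < j := by omega
      exact_mod_cast this
    have h2j : (0 : ℝ) < 2 * j := by positivity
    have hpos1 : 0 < (2 * j : ℝ) ^ (α - 3) * μ ^ (2 * j) := by positivity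
    have hjr : (0 : ℝ) < 2 * ((j + r : ℕ) : ℝ) := by
      push_cast
      positivity
    have hpos2 : 0 < (2 * ((j + r : ℕ) : ℝ)) ^ (α' - 3) * μ' ^ (2 * (j + r)) := by positivity
    rw [lt_div_iff₀ hpos1] at h1
    rw [div_lt_iff₀ hpos2] at h2
    have h3 : (2 * ((j + r : ℕ) : ℝ)) ^ (α' - 3) ≤ 2 ^ |α' - 3| * (2 * j : ℝ) ^ (α' - 3) := by
      have hjr' : (r : ℝ) ≤ j := by
        have : r ≤ j := by omega
        exact_mod_cast this
      rcases le_or_gt 0 (α' - 3) with h | h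
      · rw [abs_of_nonneg h, ← Real.mul_rpow (by norm_num) h2j.le]
        refine Real.rpow_le_rpow hjr.le ?_ h
        push_cast
        linarith
      · have h4 : (2 * ((j + r : ℕ) : ℝ)) ^ (α' - 3) ≤ (2 * j : ℝ) ^ (α' - 3) := by
          refine Real.rpow_le_rpow_of_nonpos h2j ?_ h.le
          push_cast
          have : (0 : ℝ) ≤ r := Nat.cast_nonneg r
          linarith
        have h5 : (1 : ℝ) ≤ 2 ^ |α' - 3| :=
          Real.one_le_rpow (by norm_num) (abs_nonneg _)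
        have h6 : 0 ≤ (2 * j : ℝ) ^ (α' - 3) := by positivity
        nlinarith
    have h4 : c * (2 * j : ℝ) ^ s * (A / 2 * ((2 * j : ℝ) ^ (α - 3) * μ ^ (2 * j))) ≤
        (|A'| + 1) * ((2 ^ |α' - 3| * (2 * j : ℝ) ^ (α' - 3)) * μ' ^ (2 * (j + r))) := by
      have hA' : (0 : ℝ) < |A'| + 1 := by positivity
      calc c * (2 * j : ℝ) ^ s * (A / 2 * ((2 * j : ℝ) ^ (α - 3) * μ ^ (2 * j)))
          ≤ c * (2 * j : ℝ) ^ s * f j := by
            apply mul_le_mul_of_nonneg_left h1.le; positivity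
        _ ≤ g (j + r) := hH
        _ ≤ (|A'| + 1) * ((2 * ((j + r : ℕ) : ℝ)) ^ (α' - 3) * μ' ^ (2 * (j + r))) := h2.le
        _ ≤ _ := by
            apply mul_le_mul_of_nonneg_left _ hA'.le
            apply mul_le_mul_of_nonneg_right h3
            positivity
    have e1 : (2 * j : ℝ) ^ (α' - α - s) =
        (2 * j : ℝ) ^ (α' - 3) / ((2 * j : ℝ) ^ s * (2 * j : ℝ) ^ (α - 3)) := by
      rw [← Real.rpow_add h2j, ← Real.rpow_sub h2j]
      congr 1
      ring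
    have e2 : μ' ^ (2 * (j + r)) = μ' ^ (2 * r) * μ' ^ (2 * j) := by
      rw [← pow_add]; congr 1; ring
    rw [e1, div_pow, div_le_iff₀ (by positivity)]
    rw [e2] at h4
    have h5 : 0 < (2 * j : ℝ) ^ s * (2 * j : ℝ) ^ (α - 3) := by positivity
    have h6 : 0 < c * (A / 2) := by positivity
    have h7 : μ ^ (2 * j) * ((c * (A / 2)) * ((2 * j : ℝ) ^ s * (2 * j : ℝ) ^ (α - 3))) ≤
        (|A'| + 1) * 2 ^ |α' - 3| * μ' ^ (2 * r) * (2 * j : ℝ) ^ (α' - 3) * μ' ^ (2 * j) := by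
      linarith
    calc μ ^ (2 * j) = μ ^ (2 * j) * ((c * (A / 2)) * ((2 * j : ℝ) ^ s * (2 * j : ℝ) ^ (α - 3))) /
          ((c * (A / 2)) * ((2 * j : ℝ) ^ s * (2 * j : ℝ) ^ (α - 3))) := by
          field_simp
      _ ≤ ((|A'| + 1) * 2 ^ |α' - 3| * μ' ^ (2 * r) * (2 * j : ℝ) ^ (α' - 3) * μ' ^ (2 * j)) /
          ((c * (A / 2)) * ((2 * j : ℝ) ^ s * (2 * j : ℝ) ^ (α - 3))) :=
          div_le_div_of_nonneg_right h7 (by positivity)
      _ = _ := by
          field_simp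
  obtain ⟨C, hC, hk⟩ := key
  constructor
  · by_contra hcon
    rw [not_le] at hcon
    have hq : 1 < (μ / μ') ^ 2 := by
      have : 1 < μ / μ' := by rw [one_lt_div hμ']; exact hcon
      nlinarith
    obtain ⟨n, hn⟩ := exists_nat_ge (α' - α - s)
    have h1 := tendsto_pow_const_div_const_pow_of_one_lt n hq
    have h2 : ∀ᶠ j : ℕ in atTop, (j : ℝ) ^ n / ((μ / μ') ^ 2) ^ j < 1 / (C * 2 ^ n) :=
      h1.eventually (gt_mem_nhds (by positivity))
    obtain ⟨j, hj1, hj2, hj3⟩ := (hk.and (h2.and (eventually_ge_atTop 1))).exists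
    have hj0 : (1 : ℝ) ≤ j := by exact_mod_cast hj3
    rw [← pow_mul, div_lt_div_iff₀ (by positivity) (by positivity)] at hj2
    have h3 : (2 * j : ℝ) ^ (α' - α - s) ≤ (2 * j : ℝ) ^ n := by
      rw [← Real.rpow_natCast]
      exact Real.rpow_le_rpow_of_exponent_le (by linarith) hn
    have h4 : (μ / μ') ^ (2 * j) ≤ C * (2 * j : ℝ) ^ n :=
      hj1.trans (mul_le_mul_of_nonneg_left h3 hC.le)
    rw [mul_pow] at h4
    linarith
  · rintro rfl
    by_contra hcon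
    rw [not_le] at hcon
    have h1 : Tendsto (fun j : ℕ => C * (2 * j : ℝ) ^ (α' - α - s)) atTop (𝓝 (C * 0)) := by
      refine Tendsto.const_mul C ?_
      have h2 : Tendsto (fun x : ℝ => x ^ (-(α + s - α'))) atTop (𝓝 0) :=
        tendsto_rpow_neg_atTop (by linarith)
      have h3 : Tendsto (fun j : ℕ => (2 * j : ℝ)) atTop atTop :=
        Tendsto.const_mul_atTop (by norm_num) tendsto_natCast_atTop_atTop
      have h4 := h2.comp h3
      refine h4.congr fun j => ?_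
      simp only [Function.comp]
      congr 1
      ring
    rw [mul_zero] at h1
    have h2 : ∀ᶠ j : ℕ in atTop, C * (2 * j : ℝ) ^ (α' - α - s) < 1 :=
      h1.eventually (gt_mem_nhds one_pos)
    obtain ⟨j, hj1, hj2⟩ := (hk.and h2).exists
    rw [div_self hμ.ne', one_pow] at hj1
    linarith

/-- polygons of a single type -/
theorem single_main (k : List V) (ks : ℕ → List V) (N M : ℕ) (hno : NoM (Ty k) ks N M)
    (hex : ∀ i < N, ∃ w, SAP w ∧ Same (vl w) (ks i)) (l : List V) (hl : SumsC (Ty k) ks N l) :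
    ∃ (c : ℝ) (r : ℕ), 0 < c ∧ ∀ᶠ j : ℕ in atTop,
      c * (2 * j : ℝ) ^ (2 * N / 3 : ℝ) * pq (KT k) (2 * j) ≤ pq (KT l) (2 * (j + r)) := by
  obtain ⟨c, m, hc, hm, h⟩ := class_main (Ty_TC k) ks N M hno hex
  obtain ⟨r, rfl⟩ : ∃ r, m = 2 * r := ⟨m / 2, by omega⟩
  refine ⟨c / 4, r, by positivity, ?_⟩
  obtain ⟨n0, hn0⟩ := eventually_atTop.1 h
  filter_upwards [eventually_ge_atTop (n0 + r + 1)] with j hj
  have h1 := hn0 (2 * j) (by omega)
  have h2 : (a (KT k) (2 * j) : ℝ) ≤ 2 * a (fun w => Ty k (vl w)) (2 * j) := by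
    exact_mod_cast a_le_two k (2 * j)
  have h3 : (a (fun w => SumsC (Ty k) ks N (vl w)) (2 * j + 2 * r) : ℝ) ≤
      a (KT l) (2 * (j + r)) := by
    have e : 2 * j + 2 * r = 2 * (j + r) := by ring
    rw [e]
    unfold a
    have : (K (fun w => SumsC (Ty k) ks N (vl w)) (2 * (j + r))).card ≤
        (K (KT l) (2 * (j + r))).card := by
      apply Finset.card_le_card
      intro w hw
      rw [mem_K] at hw ⊢
      exact ⟨hw.1, hw.2.1, Or.inl (sums_unique k ks N _ _ hw.2.2 hl)⟩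
    exact_mod_cast this
  have hj0 : (0 : ℝ) < j := by
    have : 0 < j := by omega
    exact_mod_cast this
  have hjr : (r : ℝ) ≤ j := by
    have : r ≤ j := by omega
    exact_mod_cast this
  push_cast at h1
  have hs : 0 < (2 * j : ℝ) ^ (2 * N / 3 : ℝ) := by positivity
  have h4 : c / 2 * (2 * j : ℝ) ^ (2 * N / 3 : ℝ) * a (KT k) (2 * j) ≤ a (KT l) (2 * (j + r)) := by
    have h5 : c / 2 * (2 * j : ℝ) ^ (2 * N / 3 : ℝ) * a (KT k) (2 * j) ≤
        c / 2 * (2 * j : ℝ) ^ (2 * N / 3 : ℝ) * (2 * a (fun w => Ty k (vl w)) (2 * j)) :=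
      mul_le_mul_of_nonneg_left h2 (by positivity)
    linarith
  unfold pq
  push_cast
  have h6 : (0 : ℝ) < 2 * (2 * (j + r)) := by positivity
  have h7 : (0 : ℝ) < 2 * (2 * j) := by positivity
  rw [← mul_div_assoc, div_le_div_iff₀ h7 h6]
  have h8 : (0 : ℝ) ≤ a (KT l) (2 * (j + r)) := Nat.cast_nonneg _
  have h9 : (0 : ℝ) ≤ c / 2 * (2 * j : ℝ) ^ (2 * N / 3 : ℝ) * a (KT k) (2 * j) := by positivity
  nlinarith

end KN.KQ
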