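import Pool.Agent.TH945.KQ.FDefs

/-!
# Normalization (after `Pool.Agent.H246K3.XNORM`)
-/

set_option autoImplicit false

namespace KN.KQ

open Finset Filter Topology K3XNORM

theorem DOn_tr {G : Type} [Group G] {H : Subgroup G} (g : Gauge G) (ψ : Z3 → G)
    (h : DOn H Al (tr g ψ)) : DOn H Al g := by
  obtain ⟨φ, hφ⟩ := h
  refine ⟨fun c => φ c * ψ c, fun c d _ _ => ?_⟩
  have h1 := hφ c d trivial trivial
  rw [gst_tr] at h1
  have e : φ c * (ψ c * gst g c d * (ψ (c + vec d))⁻¹) * (φ (c + vec d))⁻¹ =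
      φ c * ψ c * gst g c d * (φ (c + vec d) * ψ (c + vec d))⁻¹ := by group
  rw [e] at h1
  exact h1

/-- normalization -/
theorem norm_gauge (G : Type) [Group G] (g : Gauge G) (v : List Dir)
    (hv : ∀ p ∈ path v, 0 ≤ p.1) (hg : GF g (.zm :: v)) : ∃ g' : Gauge G, GF g' (.zm :: v) ∧
    (∀ c, g'.g1 c = 1) ∧ (∀ c : Z3, c.1 < 0 → g'.g2 c = 1 ∧ g'.g3 c = 1) ∧
    ∀ H : Subgroup G, DOn H Al g' → DOn H Al g := by
  -- flatness in the layers below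
  have hfl : ∀ q : Z3, q.1 < 0 → Fl12 g q ∧ Fl13 g q ∧ Fl23 g q := by
    intro q hq
    obtain ⟨n1, n2, n3⟩ := not_Eg hv hq
    obtain ⟨h1, h2, h3⟩ := hg q
    exact ⟨h1.resolve_left n1, h2.resolve_left n2, h3.resolve_left n3⟩
  obtain ⟨ω, _, hω⟩ := exists_integ (fun y => g.g2 (-1, y, 0)) 0 1
  choose χ hχ0 hχ using fun y : ℤ => exists_integ (fun z => g.g3 (-1, y, z)) 0 (ω y)
  choose ρ hρ0 hρ using fun (y z : ℤ) => exists_integ (fun x => g.g1 (x, y, z)) (-1) (χ y z)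
  set ψ : Z3 → G := fun c => ρ c.2.1 c.2.2 c.1 with hψ
  have e1 : ∀ c, (tr g ψ).g1 c = 1 := by
    rintro ⟨x, y, z⟩
    show ψ (x, y, z) * g.g1 (x, y, z) * (ψ ((x, y, z) + (1, 0, 0)))⁻¹ = 1
    have h1 : ((x, y, z) : Z3) + (1, 0, 0) = (x + 1, y, z) := by simp
    rw [h1, mul_inv_eq_one]
    exact (hρ y z x).symm
  have e3 : ∀ y z : ℤ, (tr g ψ).g3 (-1, y, z) = 1 := by
    intro y z
    show ψ (-1, y, z) * g.g3 (-1, y, z) * (ψ ((-1, y, z) + (0, 0, 1)))⁻¹ = 1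
    have h1 : ((-1, y, z) : Z3) + (0, 0, 1) = (-1, y, z + 1) := by simp
    rw [h1, mul_inv_eq_one]
    show ρ y z (-1) * g.g3 (-1, y, z) = ρ y (z + 1) (-1)
    rw [hρ0, hρ0, hχ]
  have e20 : ∀ y : ℤ, (tr g ψ).g2 (-1, y, 0) = 1 := by
    intro y
    show ψ (-1, y, 0) * g.g2 (-1, y, 0) * (ψ ((-1, y, 0) + (0, 1, 0)))⁻¹ = 1
    have h1 : ((-1, y, 0) : Z3) + (0, 1, 0) = (-1, y + 1, 0) := by simp
    rw [h1, mul_inv_eq_one]
    show ρ y 0 (-1) * g.g2 (-1, y, 0) = ρ (y + 1) 0 (-1)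
    rw [hρ0, hρ0, hχ0, hχ0, hω]
  have e2 : ∀ y z : ℤ, (tr g ψ).g2 (-1, y, z) = 1 := by
    intro y z
    have hstep : ∀ t : ℤ, (tr g ψ).g2 (-1, y, t + 1) = (tr g ψ).g2 (-1, y, t) := by
      intro t
      have h1 := Fl23_tr ψ (hfl (-1, y + 1, t + 1) (by simp)).2.2
      unfold Fl23 at h1
      have a1 : ((-1, y + 1, t + 1) : Z3) - (0, 1, 1) = (-1, y, t) := by simp
      have a2 : ((-1, y + 1, t + 1) : Z3) - (0, 0, 1) = (-1, y + 1, t) := by simp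
      have a3 : ((-1, y + 1, t + 1) : Z3) - (0, 1, 0) = (-1, y, t + 1) := by simp
      rw [a1, a2, a3, e3, e3, mul_one, one_mul] at h1
      exact h1.symm
    rw [const_of_step (fun t => (tr g ψ).g2 (-1, y, t)) hstep z]
    exact e20 y
  refine ⟨tr g ψ, GF_tr ψ hg, e1, ?_, fun H h => DOn_tr g ψ h⟩
  rintro ⟨x, y, z⟩ hx
  have hx' : x < 0 := hx
  constructor
  · rw [const_below (fun t => (tr g ψ).g2 (t, y, z)) ?_ x hx']
    · exact e2 y z
    · intro t ht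
      have h1 := Fl12_tr ψ (hfl (t + 1, y + 1, z) (by show t + 1 < 0; omega)).1
      unfold Fl12 at h1
      have a1 : ((t + 1, y + 1, z) : Z3) - (1, 1, 0) = (t, y, z) := by simp
      have a2 : ((t + 1, y + 1, z) : Z3) - (0, 1, 0) = (t + 1, y, z) := by simp
      rw [a1, a2, e1, e1, mul_one, one_mul] at h1
      exact h1
  · rw [const_below (fun t => (tr g ψ).g3 (t, y, z)) ?_ x hx']
    · exact e3 y z
    · intro t ht
      have h1 := Fl13_tr ψ (hfl (t + 1, y, z + 1) (by show t + 1 < 0; omega)).2.1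
      unfold Fl13 at h1
      have a1 : ((t + 1, y, z + 1) : Z3) - (1, 0, 1) = (t, y, z) := by simp
      have a2 : ((t + 1, y, z + 1) : Z3) - (0, 0, 1) = (t + 1, y, z) := by simp
      rw [a1, a2, e1, e1, mul_one, one_mul] at h1
      exact h1

end KN.KQ
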