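import Pool.Agent.TH945.KQ.FDISC
import Pool.Agent.TH945.KQ.FNORM

/-!
# Finite groups: there are finitely many inequivalent locally flat functions
-/

set_option autoImplicit false

namespace KN.KQ

open Filter Topology
open scoped Classical

variable {G : Type} [Group G]

theorem eg_mem {w : List Dir} {q : Z3} {f : Dir} (h : Eg w q f) : q ∈ path w := by
  obtain ⟨l1, l2, ⟨h1, h2⟩ | ⟨h1, h2⟩⟩ := h
  · rw [h1, ← h2]
    exact K3XKCYC.suffix_mem (l1 ++ [f]) l2 |> (by simpa using ·)
  · have h3 : pos (neg f :: l2) = q := by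
      show pos l2 + vec (neg f) = q
      rw [h2, vec_neg]
      abel
    rw [h1, ← h3]
    exact K3XKCYC.suffix_mem l1 (neg f :: l2)

theorem comp_eq {ι : Type} {g : Gauge (ι → G)} {w : List Dir} (hg : GF g w)
    (h1 : ∀ c, g.g1 c = 1) (h0 : ∀ c : Z3, c.1 < 0 → g.g2 c = 1 ∧ g.g3 c = 1) (i j : ι)
    (h2 : ∀ c : Z3, c + (0, 1, 0) ∈ path w → g.g2 c i = g.g2 c j)
    (h3 : ∀ c : Z3, c + (0, 0, 1) ∈ path w → g.g3 c i = g.g3 c j) :
    ∀ c : Z3, g.g2 c i = g.g2 c j ∧ g.g3 c i = g.g3 c j := by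
  have key : ∀ (n : ℕ) (c : Z3), c.1 < n → g.g2 c i = g.g2 c j ∧ g.g3 c i = g.g3 c j := by
    intro n
    induction n with
    | zero =>
      intro c hc
      obtain ⟨a, b⟩ := h0 c (by exact_mod_cast hc)
      rw [a, b]
      exact ⟨rfl, rfl⟩
    | succ n ih =>
      intro c hc
      obtain ⟨i2, i3⟩ := ih (c - (1, 0, 0)) (by
        show c.1 - 1 < n
        push_cast at hc
        omega)
      constructor
      · rcases (hg (c + (0, 1, 0))).1 with h | h
        · exact h2 c (eg_mem h)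
        · unfold Fl12 at h
          rw [h1, h1, one_mul, mul_one] at h
          have e1 : c + (0, 1, 0) - (0, 1, 0) = c := by abel
          have e2 : c + (0, 1, 0) - (1, 1, 0) = c - (1, 0, 0) := by
            ext <;> simp
          rw [e1, e2] at h
          rw [h]
          exact i2
      · rcases (hg (c + (0, 0, 1))).2.1 with h | h
        · exact h3 c (eg_mem h)
        · unfold Fl13 at h
          rw [h1, h1, one_mul, mul_one] at h
          have e1 : c + (0, 0, 1) - (0, 0, 1) = c := by abel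
          have e2 : c + (0, 0, 1) - (1, 0, 1) = c - (1, 0, 0) := by
            ext <;> simp
          rw [e1, e2] at h
          rw [h]
          exact i3
  intro c
  exact key (c.1 + 1).toNat c (by
    have := Int.self_le_toNat (c.1 + 1)
    omega)

/-- the number of inequivalent functions is bounded -/
theorem ind_bound [Finite G] (v : List Dir) (hv : ∀ p ∈ path v, 0 ≤ p.1)
    (hS : SAP (.zm :: v)) : ∃ B : ℕ, ∀ m : ℕ, Ind G m (vl (.zm :: v)) → m ≤ B := by
  set w : List Dir := .zm :: v with hw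
  set S : Finset Z3 := (path w).toFinset.image (· - (0, 1, 0)) ∪
    (path w).toFinset.image (· - (0, 0, 1)) with hSdef
  haveI : Fintype G := Fintype.ofFinite G
  refine ⟨Fintype.card (S → G × G), ?_⟩
  rintro m ⟨ι, _, rfl, T, hT, hn⟩
  by_contra hcon
  rw [not_le] at hcon
  obtain ⟨g, hg, hgT⟩ := disc d_convex T_pot2_proof X_box_proof (ι → G) T w hS hT
  obtain ⟨g', hg', e1, e0, hgg⟩ := norm_gauge (ι → G) g v hv hg
  obtain ⟨i, j, hij, he⟩ := Fintype.exists_ne_map_eq_of_card_lt
    (fun (i : ι) (c : S) => (g'.g2 c.1 i, g'.g3 c.1 i)) hcon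
  apply hn i j hij
  apply hgT
  apply hgg
  have hc := comp_eq hg' e1 e0 i j (fun c hc => by
      have hcS : c ∈ S := by
        rw [hSdef, Finset.mem_union]
        left
        rw [Finset.mem_image]
        exact ⟨c + (0, 1, 0), by rw [List.mem_toFinset]; exact hc, by simp⟩
      exact congrArg Prod.fst (congrFun he ⟨c, hcS⟩)) (fun c hc => by
      have hcS : c ∈ S := by
        rw [hSdef, Finset.mem_union]
        right
        rw [Finset.mem_image]
        exact ⟨c + (0, 0, 1), by rw [List.mem_toFinset]; exact hc, by simp⟩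
      exact congrArg Prod.snd (congrFun he ⟨c, hcS⟩))
  refine ⟨fun _ => 1, fun c d _ _ => ?_⟩
  rw [one_mul, inv_one, mul_one, mem_Eqs]
  cases d with
  | xp => show g'.g1 c i = g'.g1 c j; rw [e1]; rfl
  | xm => show (g'.g1 (c - (1, 0, 0)))⁻¹ i = (g'.g1 (c - (1, 0, 0)))⁻¹ j; rw [e1]; rfl
  | yp => exact (hc c).1
  | ym =>
    show (g'.g2 (c - (0, 1, 0)))⁻¹ i = (g'.g2 (c - (0, 1, 0)))⁻¹ j
    rw [Pi.inv_apply, Pi.inv_apply, (hc _).1]
  | zp => exact (hc c).2
  | zm =>
    show (g'.g3 (c - (0, 0, 1)))⁻¹ i = (g'.g3 (c - (0, 0, 1)))⁻¹ j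
    rw [Pi.inv_apply, Pi.inv_apply, (hc _).2]

end KN.KQ
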