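import Pool.Agent.TH945.KQ.FDefs

/-!
# Discretization (after `Pool.Agent.H246K3.XDISC`)
-/

set_option autoImplicit false

namespace KN.KQ

open Filter Topology K3XDISC

/-- discretization -/
theorem disc (hconv : T_convex) (hpot : T_pot2) (hbox : X_box) (G : Type) [Group G]
    (T : V → V → G) (w : List Dir) (hw : SAP w) (hfl : Flat (ps (vl w))ᶜ T) :
    ∃ g : Gauge G, GF g w ∧ ∀ H : Subgroup G, DOn H Al g → On H (ps (vl w))ᶜ T := by
  have hsub : ∀ q m, Good w q m → Bx q m ⊆ (ps (vl w))ᶜ := fun q m h x hx =>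
    hbox w hw q m h.a1 h.a2 h.a3 h.e12 h.e13 h.e23 x hx
  have hψ : ∀ q m, Good w q m → ∃ ψ, Pot (Bx q m) T ψ := fun q m h =>
    hconv G _ T hfl (Bx q m) (Bx_open q m) (Bx_convex q m) (hsub q m h)
  obtain ⟨D, hD⟩ := exists_D hpot T w
  let g : Gauge G := ⟨fun c => D (mc c) (mc (c + (1, 0, 0))), fun c => D (mc c) (mc (c + (0, 1, 0))),
    fun c => D (mc c) (mc (c + (0, 0, 1)))⟩
  have G1 : ∀ (q m : Z3) (ψ : V → G), Good w q m → Pot (Bx q m) T ψ → ∀ c c' : Z3,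
      c + (1, 0, 0) = c' → inb q m c → inb q m c' → g.g1 c = (ψ (mc c))⁻¹ * ψ (mc c') := by
    intro q m ψ h1 h2 c c' h3 h4 h5
    subst h3
    exact hD q m ψ h1 h2 _ (mc_mem h4) _ (mc_mem h5)
  have G2 : ∀ (q m : Z3) (ψ : V → G), Good w q m → Pot (Bx q m) T ψ → ∀ c c' : Z3,
      c + (0, 1, 0) = c' → inb q m c → inb q m c' → g.g2 c = (ψ (mc c))⁻¹ * ψ (mc c') := by
    intro q m ψ h1 h2 c c' h3 h4 h5
    subst h3
    exact hD q m ψ h1 h2 _ (mc_mem h4) _ (mc_mem h5)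
  have G3 : ∀ (q m : Z3) (ψ : V → G), Good w q m → Pot (Bx q m) T ψ → ∀ c c' : Z3,
      c + (0, 0, 1) = c' → inb q m c → inb q m c' → g.g3 c = (ψ (mc c))⁻¹ * ψ (mc c') := by
    intro q m ψ h1 h2 c c' h3 h4 h5
    subst h3
    exact hD q m ψ h1 h2 _ (mc_mem h4) _ (mc_mem h5)
  refine ⟨g, ?_, ?_⟩
  · intro q
    refine ⟨?_, ?_, ?_⟩
    · by_cases h : Eg w q .zp
      · exact Or.inl h
      · right
        have hg : Good w q (1, 1, 0) := ⟨Or.inr rfl, Or.inr rfl, Or.inl rfl,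
          fun _ _ => ⟨h, fun h0 => absurd h0 (by decide)⟩, fun _ h0 => absurd h0 (by decide),
          fun _ h0 => absurd h0 (by decide)⟩
        obtain ⟨ψ, hψ1⟩ := hψ q _ hg
        unfold Fl12
        rw [G1 q _ ψ hg hψ1 (q - (1, 1, 0)) (q - (0, 1, 0)) (by ext <;> simp)
            (by refine ⟨?_, ?_, ?_, ?_, ?_, ?_⟩ <;> simp) (by refine ⟨?_, ?_, ?_, ?_, ?_, ?_⟩ <;> simp),
          G2 q _ ψ hg hψ1 (q - (0, 1, 0)) q (by ext <;> simp)
            (by refine ⟨?_, ?_, ?_, ?_, ?_, ?_⟩ <;> simp) (by refine ⟨?_, ?_, ?_, ?_, ?_, ?_⟩ <;> simp),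
          G2 q _ ψ hg hψ1 (q - (1, 1, 0)) (q - (1, 0, 0)) (by ext <;> simp)
            (by refine ⟨?_, ?_, ?_, ?_, ?_, ?_⟩ <;> simp) (by refine ⟨?_, ?_, ?_, ?_, ?_, ?_⟩ <;> simp),
          G1 q _ ψ hg hψ1 (q - (1, 0, 0)) q (by ext <;> simp)
            (by refine ⟨?_, ?_, ?_, ?_, ?_, ?_⟩ <;> simp) (by refine ⟨?_, ?_, ?_, ?_, ?_, ?_⟩ <;> simp)]
        group
    · by_cases h : Eg w q .yp
      · exact Or.inl h
      · right
        have hg : Good w q (1, 0, 1) := ⟨Or.inr rfl, Or.inl rfl, Or.inr rfl,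
          fun _ h0 => absurd h0 (by decide), fun _ _ => ⟨h, fun h0 => absurd h0 (by decide)⟩,
          fun h0 => absurd h0 (by decide)⟩
        obtain ⟨ψ, hψ1⟩ := hψ q _ hg
        unfold Fl13
        rw [G1 q _ ψ hg hψ1 (q - (1, 0, 1)) (q - (0, 0, 1)) (by ext <;> simp)
            (by refine ⟨?_, ?_, ?_, ?_, ?_, ?_⟩ <;> simp) (by refine ⟨?_, ?_, ?_, ?_, ?_, ?_⟩ <;> simp),
          G3 q _ ψ hg hψ1 (q - (0, 0, 1)) q (by ext <;> simp)
            (by refine ⟨?_, ?_, ?_, ?_, ?_, ?_⟩ <;> simp) (by refine ⟨?_, ?_, ?_, ?_, ?_, ?_⟩ <;> simp),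
          G3 q _ ψ hg hψ1 (q - (1, 0, 1)) (q - (1, 0, 0)) (by ext <;> simp)
            (by refine ⟨?_, ?_, ?_, ?_, ?_, ?_⟩ <;> simp) (by refine ⟨?_, ?_, ?_, ?_, ?_, ?_⟩ <;> simp),
          G1 q _ ψ hg hψ1 (q - (1, 0, 0)) q (by ext <;> simp)
            (by refine ⟨?_, ?_, ?_, ?_, ?_, ?_⟩ <;> simp) (by refine ⟨?_, ?_, ?_, ?_, ?_, ?_⟩ <;> simp)]
        group
    · by_cases h : Eg w q .xp
      · exact Or.inl h
      · right
        have hg : Good w q (0, 1, 1) := ⟨Or.inl rfl, Or.inr rfl, Or.inr rfl,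
          fun h0 => absurd h0 (by decide), fun h0 => absurd h0 (by decide),
          fun _ _ => ⟨h, fun h0 => absurd h0 (by decide)⟩⟩
        obtain ⟨ψ, hψ1⟩ := hψ q _ hg
        unfold Fl23
        rw [G2 q _ ψ hg hψ1 (q - (0, 1, 1)) (q - (0, 0, 1)) (by ext <;> simp)
            (by refine ⟨?_, ?_, ?_, ?_, ?_, ?_⟩ <;> simp) (by refine ⟨?_, ?_, ?_, ?_, ?_, ?_⟩ <;> simp),
          G3 q _ ψ hg hψ1 (q - (0, 0, 1)) q (by ext <;> simp)
            (by refine ⟨?_, ?_, ?_, ?_, ?_, ?_⟩ <;> simp) (by refine ⟨?_, ?_, ?_, ?_, ?_, ?_⟩ <;> simp),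
          G3 q _ ψ hg hψ1 (q - (0, 1, 1)) (q - (0, 1, 0)) (by ext <;> simp)
            (by refine ⟨?_, ?_, ?_, ?_, ?_, ?_⟩ <;> simp) (by refine ⟨?_, ?_, ?_, ?_, ?_, ?_⟩ <;> simp),
          G2 q _ ψ hg hψ1 (q - (0, 1, 0)) q (by ext <;> simp)
            (by refine ⟨?_, ?_, ?_, ?_, ?_, ?_⟩ <;> simp) (by refine ⟨?_, ?_, ?_, ?_, ?_, ?_⟩ <;> simp)]
        group
  · rintro H ⟨φ, hcyc'⟩
    have hcyc : ∀ (c : Z3) (d : Dir), φ c * gst g c d * (φ (c + vec d))⁻¹ ∈ H :=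
      fun c d => hcyc' c d trivial trivial
    refine ⟨fun x => φ (cube x) * D (mc (cube x)) x, ?_⟩
    intro x hx
    have hg := good_self w hw x hx
    set q := cube x with hq
    set m : Z3 := (mm x.1, mm x.2.1, mm x.2.2) with hm
    obtain ⟨ψ, hψ1⟩ := hψ q m hg
    obtain ⟨N, hN, hNT⟩ := hψ1 x (self_mem x)
    refine ⟨N ∩ Bx q m, inter_mem hN ((Bx_open q m).mem_nhds (self_mem x)), ?_⟩
    intro a ha b hb
    rw [hNT a ha.1 b hb.1]
    have hca := cube_inb ha.2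
    have hcb := cube_inb hb.2
    show φ (cube a) * D (mc (cube a)) a * ((ψ a)⁻¹ * ψ b) * (φ (cube b) * D (mc (cube b)) b)⁻¹ ∈
      H
    rw [hD q m ψ hg hψ1 _ (mc_mem hca) a ha.2, hD q m ψ hg hψ1 _ (mc_mem hcb) b hb.2]
    -- the function `F`
    set F : Z3 → G := fun c => φ c * (ψ (mc c))⁻¹ with hF
    have f1 : ∀ c c' : Z3, c + (1, 0, 0) = c' → inb q m c → inb q m c' →
        F c * (F c')⁻¹ ∈ H := by
      intro c c' h1 h2 h3
      have := hcyc c .xp
      have e : gst g c .xp = (ψ (mc c))⁻¹ * ψ (mc c') := G1 q m ψ hg hψ1 c c' h1 h2 h3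
      have e2 : c + vec .xp = c' := h1
      rw [e, e2] at this
      convert this using 1
      simp only [hF]
      group
    have f2 : ∀ c c' : Z3, c + (0, 1, 0) = c' → inb q m c → inb q m c' →
        F c * (F c')⁻¹ ∈ H := by
      intro c c' h1 h2 h3
      have := hcyc c .yp
      have e : gst g c .yp = (ψ (mc c))⁻¹ * ψ (mc c') := G2 q m ψ hg hψ1 c c' h1 h2 h3
      have e2 : c + vec .yp = c' := h1
      rw [e, e2] at this
      convert this using 1
      simp only [hF]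
      group
    have f3 : ∀ c c' : Z3, c + (0, 0, 1) = c' → inb q m c → inb q m c' →
        F c * (F c')⁻¹ ∈ H := by
      intro c c' h1 h2 h3
      have := hcyc c .zp
      have e : gst g c .zp = (ψ (mc c))⁻¹ * ψ (mc c') := G3 q m ψ hg hψ1 c c' h1 h2 h3
      have e2 : c + vec .zp = c' := h1
      rw [e, e2] at this
      convert this using 1
      simp only [hF]
      group
    have hm1 := hg.a1
    have hm2 := hg.a2
    have hm3 := hg.a3
    have key : ∀ c : Z3, inb q m c → F c * (F q)⁻¹ ∈ H := by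
      rintro ⟨c1, c2, c3⟩ ⟨h1, h2, h3, h4, h5, h6⟩
      simp only at h1 h2 h3 h4 h5 h6
      have s1 : F (c1, c2, c3) * (F (q.1, c2, c3))⁻¹ ∈ H := by
        by_cases h : c1 = q.1
        · rw [h, mul_inv_cancel]; exact one_mem _
        · apply f1
          · ext <;> simp; omega
          · exact ⟨h1, h2, h3, h4, h5, h6⟩
          · exact ⟨by simp only; omega, le_refl _, h3, h4, h5, h6⟩
      have s2 : F (q.1, c2, c3) * (F (q.1, q.2.1, c3))⁻¹ ∈ H := by
        by_cases h : c2 = q.2.1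
        · rw [h, mul_inv_cancel]; exact one_mem _
        · apply f2
          · ext <;> simp; omega
          · exact ⟨by simp only; omega, le_refl _, h3, h4, h5, h6⟩
          · exact ⟨by simp only; omega, le_refl _, by simp only; omega, le_refl _, h5, h6⟩
      have s3 : F (q.1, q.2.1, c3) * (F (q.1, q.2.1, q.2.2))⁻¹ ∈ H := by
        by_cases h : c3 = q.2.2
        · rw [h, mul_inv_cancel]; exact one_mem _
        · apply f3
          · ext <;> simp; omega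
          · exact ⟨by simp only; omega, le_refl _, by simp only; omega, le_refl _, h5, h6⟩
          · exact ⟨by simp only; omega, le_refl _, by simp only; omega, le_refl _,
              by simp only; omega, le_refl _⟩
      have s := mul_mem (mul_mem s1 s2) s3
      have e : F (c1, c2, c3) * (F (q.1, c2, c3))⁻¹ * (F (q.1, c2, c3) * (F (q.1, q.2.1, c3))⁻¹) *
          (F (q.1, q.2.1, c3) * (F (q.1, q.2.1, q.2.2))⁻¹) = F (c1, c2, c3) * (F q)⁻¹ := by
        group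
      rw [e] at s
      exact s
    have := mul_mem (key _ hca) (inv_mem (key _ hcb))
    convert this using 1
    simp only [hF]
    group

end KN.KQ
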