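import Pool.Agent.H246K3.All3

/-!
# Holonomy in a subgroup: definitions
-/

set_option autoImplicit false

namespace KN.KQ

open Filter Topology

/-- up to a gauge transformation the function of two points has values in the subgroup `H` -/
def On {G : Type} [Group G] (H : Subgroup G) (X : Set V) (T : V → V → G) : Prop :=
  ∃ φ : V → G, ∀ x ∈ X, ∃ N ∈ 𝓝 x, ∀ a ∈ N, ∀ b ∈ N, φ a * T a b * (φ b)⁻¹ ∈ H

/-- the same for gauge fields, in a set of cubes -/
def DOn {G : Type} [Group G] (H : Subgroup G) (R : Z3 → Prop) (g : Gauge G) : Prop :=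
  ∃ φ : Z3 → G, ∀ (c : Z3) (d : Dir), R c → R (c + vec d) →
    φ c * gst g c d * (φ (c + vec d))⁻¹ ∈ H

/-- all cubes -/
def Al (_ : Z3) : Prop := True

/-- the functions with equal values at `i` and `j` -/
def Eqs {ι : Type} {G : Type} [Group G] (i j : ι) : Subgroup (ι → G) where
  carrier := {x | x i = x j}
  mul_mem' := by
    intro a b ha hb
    show a i * b i = a j * b j
    rw [show a i = a j from ha, show b i = b j from hb]
  one_mem' := rfl
  inv_mem' := by
    intro a ha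
    show (a i)⁻¹ = (a j)⁻¹
    rw [show a i = a j from ha]

theorem mem_Eqs {ι : Type} {G : Type} [Group G] {i j : ι} {x : ι → G} :
    x ∈ (Eqs i j : Subgroup (ι → G)) ↔ x i = x j := Iff.rfl

/-- `m` pairwise inequivalent locally flat functions with values in `G` off the polygon -/
def Ind (G : Type) [Group G] (m : ℕ) (l : List V) : Prop :=
  ∃ (ι : Type) (_ : Fintype ι), Fintype.card ι = m ∧ ∃ T : V → V → (ι → G), Flat (ps l)ᶜ T ∧
    ∀ i j : ι, i ≠ j → ¬ On (Eqs i j : Subgroup (ι → G)) (ps l)ᶜ T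

variable {G : Type} [Group G]

theorem On.mono {H : Subgroup G} {X Y : Set V} {T : V → V → G} (h : On H X T) (hY : Y ⊆ X) :
    On H Y T := by
  obtain ⟨φ, hφ⟩ := h
  exact ⟨φ, fun x hx => hφ x (hY hx)⟩

theorem DOn.mono {H : Subgroup G} {R S : Z3 → Prop} {g : Gauge G} (h : DOn H R g)
    (hS : ∀ c, S c → R c) : DOn H S g := by
  obtain ⟨φ, hφ⟩ := h
  exact ⟨φ, fun c d h1 h2 => hφ c d (hS _ h1) (hS _ h2)⟩

theorem flat_homeo {l l' : List V} (h : V ≃ₜ V) (hh : h '' ps l = ps l') {T : V → V → G}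
    (hflat : Flat (ps l)ᶜ T) : Flat (ps l')ᶜ (fun a b => T (h.symm a) (h.symm b)) := by
  intro x hx
  have hx' : h.symm x ∈ (ps l)ᶜ := by
    intro hcon
    apply hx
    rw [← hh]
    exact ⟨h.symm x, hcon, h.apply_symm_apply x⟩
  obtain ⟨N, hN, hN2⟩ := hflat (h.symm x) hx'
  refine ⟨h.symm ⁻¹' N, h.symm.continuous.continuousAt hN, ?_⟩
  intro a ha b hb c hc
  exact hN2 _ ha _ hb _ hc

theorem on_homeo {H : Subgroup G} {X Y : Set V} (h : V ≃ₜ V) (hh : ∀ x ∈ X, h x ∈ Y)
    {T : V → V → G} (ho : On H Y (fun a b => T (h.symm a) (h.symm b))) : On H X T := by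
  obtain ⟨φ', hφ⟩ := ho
  refine ⟨fun a => φ' (h a), ?_⟩
  intro x hx
  obtain ⟨N, hN, hN2⟩ := hφ (h x) (hh x hx)
  refine ⟨h ⁻¹' N, h.continuous.continuousAt hN, ?_⟩
  intro a ha b hb
  have h3 := hN2 (h a) ha (h b) hb
  simpa only [Homeomorph.symm_apply_apply] using h3

theorem compl_homeo {l l' : List V} (h : V ≃ₜ V) (hh : h '' ps l = ps l') :
    ∀ x ∈ (ps l)ᶜ, h x ∈ (ps l')ᶜ := by
  intro x hx hcon
  apply hx
  rw [← hh] at hcon
  obtain ⟨y, hy, hyx⟩ := hcon
  rwa [← h.injective hyx]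

theorem ind_homeo {m : ℕ} {l l' : List V} (h : V ≃ₜ V) (hh : h '' ps l = ps l')
    (hl : Ind G m l) : Ind G m l' := by
  obtain ⟨ι, _, hm, T, hflat, hab⟩ := hl
  refine ⟨ι, inferInstance, hm, fun a b => T (h.symm a) (h.symm b), flat_homeo h hh hflat, ?_⟩
  intro i j hij hon
  exact hab i j hij (on_homeo h (compl_homeo h hh) hon)

theorem ind_same {m : ℕ} {l l' : List V} (hs : Same l l') (hl : Ind G m l) : Ind G m l' := by
  obtain ⟨h, hh⟩ := d_amb _ _ hs
  exact ind_homeo h hh hl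

/-- the trivial function -/
theorem ind_one (l : List V) : Ind G 1 l :=
  ⟨Unit, inferInstance, rfl, fun _ _ => 1, fun x _ => ⟨Set.univ, univ_mem, fun _ _ _ _ _ _ => by simp⟩,
    fun i j hij => absurd (Subsingleton.elim i j) hij⟩

end KN.KQ
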