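import Pool.Agent.TH945.KQ.FDefs

/-!
# The field of a connected sum (after `Pool.Agent.H246K3.XKCYC`)
-/

set_option autoImplicit false

namespace KN.KQ

open Finset Filter Topology K3XKCYC
open scoped Classical

variable {G : Type} [Group G]

/-- the holonomy of the right polygon can be seen in the half-space -/
theorem kcyc {Z : Subgroup G} {g : Gauge G} {l1 v l2 : List Dir} (hF : Facing l1 v l2)
    (hg1 : ∀ c, g.g1 c = 1) (hg : ∀ c : Z3, c.1 < 0 → g.g2 c = 1 ∧ g.g3 c = 1)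
    (hc : DOn Z (fun c => (pos l2).1 ≤ c.1)
      (kgauge g (pos l2) (l1 ++ .xm :: .zp :: .xp :: l2))) : DOn Z Al g := by
  obtain ⟨φ, h⟩ := hc
  set y := pos l2 with hy
  set jg := kgauge g y (l1 ++ .xm :: .zp :: .xp :: l2) with hjg
  have j1 : ∀ c, jg.g1 c = 1 := fun c => rfl
  have j2 : ∀ c : Z3, c.1 = y.1 → ¬ (y.2.1 = c.2.1 + 1 ∧ y.2.2 = c.2.2) → jg.g2 c = 1 := by
    intro c hc hn
    have e : jg.g2 c = (g.g2 (0, -1, 0)) ^
        (czs (l1 ++ .xm :: .zp :: .xp :: l2) (c.1 + 1) (c.2.1 + 1) c.2.2) := by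
      show (if c.1 ≤ y.1 then _ else _) = _
      rw [if_pos hc.le]
      rfl
    rw [e, hc, hy, czs_m hF, if_neg hn, zpow_zero]
  have j3 : ∀ c : Z3, c.1 = y.1 → jg.g3 c = 1 := by
    intro c hc
    have e : jg.g3 c = (g.g2 (0, -1, 0)) ^
        (-(cys (l1 ++ .xm :: .zp :: .xp :: l2) (c.1 + 1) c.2.1 (c.2.2 + 1))) := by
      show (if c.1 ≤ y.1 then _ else _) = _
      rw [if_pos hc.le]
      rfl
    rw [e, hc, hy, cys_m hF, neg_zero, zpow_zero]
  have p1 : ∀ c : Z3, y.1 ≤ c.1 → φ c * (φ (c + (1, 0, 0)))⁻¹ ∈ Z := by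
    intro c hcy
    have := h c .xp hcy (by show y.1 ≤ c.1 + 1; omega)
    rwa [show gst jg c .xp = 1 from j1 c, mul_one] at this
  have p2 : ∀ c : Z3, y.1 ≤ c.1 → φ c * jg.g2 c * (φ (c + (0, 1, 0)))⁻¹ ∈ Z :=
    fun c hcy => h c .yp hcy (by show y.1 ≤ c.1 + 0; omega)
  have p3 : ∀ c : Z3, y.1 ≤ c.1 → φ c * jg.g3 c * (φ (c + (0, 0, 1)))⁻¹ ∈ Z :=
    fun c hcy => h c .zp hcy (by show y.1 ≤ c.1 + 0; omega)
  -- the layer
  have lz : ∀ a b b' : ℤ, φ (y.1, a, b) * (φ (y.1, a, b'))⁻¹ ∈ Z := by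
    intro a b b'
    refine int_chain (fun n => φ (y.1, a, n)) (fun n => ?_) b b'
    have := p3 (y.1, a, n) le_rfl
    rw [j3 (y.1, a, n) rfl, mul_one] at this
    simpa using this
  have ly : ∀ a a' : ℤ, φ (y.1, a, y.2.2 + 1) * (φ (y.1, a', y.2.2 + 1))⁻¹ ∈ Z := by
    intro a a'
    refine int_chain (fun n => φ (y.1, n, y.2.2 + 1)) (fun n => ?_) a a'
    have := p2 (y.1, n, y.2.2 + 1) le_rfl
    rw [j2 (y.1, n, y.2.2 + 1) rfl (by rintro ⟨-, h⟩; simp at h), mul_one] at this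
    simpa using this
  have lay : ∀ c : Z3, c.1 = y.1 → φ y * (φ c)⁻¹ ∈ Z := by
    rintro ⟨a, b, c⟩ hc
    simp only at hc
    subst hc
    exact rel_trans (rel_trans (lz y.2.1 y.2.2 (y.2.2 + 1)) (ly y.2.1 b)) (lz b _ c)
  -- the potential
  refine ⟨fun c => if 0 ≤ c.1 then φ (c + (y + (1, 0, 0))) else φ y, ?_⟩
  have o1 : ∀ c : Z3, 0 ≤ c.1 → ¬ ((c + (y + (1, 0, 0))).1 ≤ y.1) := by
    intro c hc
    simp only [Prod.fst_add]
    omega
  have key : ∀ (c : Z3) (d : Dir), (if 0 ≤ c.1 then φ (c + (y + (1, 0, 0))) else φ y) *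
      gst g c d * (if 0 ≤ (c + vec d).1 then φ (c + vec d + (y + (1, 0, 0))) else φ y)⁻¹ ∈ Z :=
    cyc_of_pos (φ := fun c => if 0 ≤ c.1 then φ (c + (y + (1, 0, 0))) else φ y) ?_ ?_ ?_
  · exact fun c d _ _ => key c d
  · intro c
    rw [hg1, mul_one]
    simp only [Prod.fst_add]
    by_cases hc : 0 ≤ c.1
    · rw [if_pos hc, if_pos (by omega)]
      have := p1 (c + (y + (1, 0, 0))) (by simp only [Prod.fst_add]; omega)
      rwa [add_right_comm] at this
    · rw [if_neg hc]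
      by_cases hc' : 0 ≤ c.1 + 1
      · rw [if_pos hc']
        have := p1 (c + (y + (1, 0, 0))) (by simp only [Prod.fst_add]; omega)
        rw [add_right_comm] at this
        refine rel_trans (lay _ ?_) this
        simp only [Prod.fst_add]
        omega
      · rw [if_neg hc', mul_inv_cancel]
        exact one_mem _
  · intro c
    simp only [Prod.fst_add, add_zero]
    by_cases hc : 0 ≤ c.1
    · rw [if_pos hc, if_pos hc]
      have := p2 (c + (y + (1, 0, 0))) (by simp only [Prod.fst_add]; omega)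
      have e : jg.g2 (c + (y + (1, 0, 0))) = g.g2 c := by
        show (if (c + (y + (1, 0, 0))).1 ≤ y.1 then _ else _) = _
        rw [if_neg (o1 c hc)]
        congr 1
        abel
      rw [e] at this
      rwa [add_right_comm] at this
    · rw [if_neg hc, if_neg hc, (hg c (by omega)).1, mul_one, mul_inv_cancel]
      exact one_mem _
  · intro c
    simp only [Prod.fst_add, add_zero]
    by_cases hc : 0 ≤ c.1
    · rw [if_pos hc, if_pos hc]
      have := p3 (c + (y + (1, 0, 0))) (by simp only [Prod.fst_add]; omega)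
      have e : jg.g3 (c + (y + (1, 0, 0))) = g.g3 c := by
        show (if (c + (y + (1, 0, 0))).1 ≤ y.1 then _ else _) = _
        rw [if_neg (o1 c hc)]
        congr 1
        abel
      rw [e] at this
      rwa [add_right_comm] at this
    · rw [if_neg hc, if_neg hc, (hg c (by omega)).2, mul_one, mul_inv_cancel]
      exact one_mem _

end KN.KQ
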