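import Pool.Agent.TH945.KQ.FDefs

/-!
# The field of a connected sum is cyclic on the left
-/

set_option autoImplicit false

namespace KN.KQ

open Filter Topology

variable {G : Type} [Group G]

theorem gse_mem {H : Subgroup G} (g : Gauge G) (c : Z3) (p m : Dir) (e : ℤ)
    (h : ∀ d : Dir, gst g c d ∈ H) : gse g c p m e ∈ H := by
  unfold gse
  split_ifs
  · exact h _
  · exact h _
  · exact one_mem _

theorem gtr_mem {H : Subgroup G} (g : Gauge G) (y : ℤ)
    (h : ∀ (c : Z3) (d : Dir), c.1 ≤ y → gst g c d ∈ H) (c c' : Z3) (hc : c.1 ≤ y)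
    (hc' : c'.1 ≤ y) : gtr g c c' ∈ H := by
  unfold gtr
  exact mul_mem (mul_mem (gse_mem g _ _ _ _ (fun d => h _ d hc))
    (gse_mem g _ _ _ _ (fun d => h _ d hc'))) (gse_mem g _ _ _ _ (fun d => h _ d hc'))

theorem kst_mem (g : Gauge G) (y : Z3) (m : List Dir) (c : Z3) (d : Dir) (hc : c.1 ≤ y.1) :
    gst (kgauge g y m) c d ∈ Subgroup.zpowers (g.g2 (0, -1, 0)) := by
  have h2 : ∀ c : Z3, c.1 ≤ y.1 → (kgauge g y m).g2 c ∈ Subgroup.zpowers (g.g2 (0, -1, 0)) := by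
    intro c hc
    show (if c.1 ≤ y.1 then _ else _) ∈ _
    rw [if_pos hc]
    exact Subgroup.zpow_mem_zpowers _ _
  have h3 : ∀ c : Z3, c.1 ≤ y.1 → (kgauge g y m).g3 c ∈ Subgroup.zpowers (g.g2 (0, -1, 0)) := by
    intro c hc
    show (if c.1 ≤ y.1 then _ else _) ∈ _
    rw [if_pos hc]
    exact Subgroup.zpow_mem_zpowers _ _
  cases d with
  | xp => exact one_mem _
  | xm => exact inv_mem (one_mem _)
  | yp => exact h2 c hc
  | ym => exact inv_mem (h2 _ (by show c.1 - 0 ≤ y.1; omega))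
  | zp => exact h3 c hc
  | zm => exact inv_mem (h3 _ (by show c.1 - 0 ≤ y.1; omega))

theorem left_on (g : Gauge G) (y : Z3) (m : List Dir) :
    On (Subgroup.zpowers (g.g2 (0, -1, 0))) {x : V | x.1 < (y.1 : ℝ) + 1}
      (TT (kgauge g y m)) := by
  refine ⟨fun _ => 1, fun x hx => ⟨{a : V | a.1 < (y.1 : ℝ) + 1},
    (isOpen_lt continuous_fst continuous_const).mem_nhds hx, fun a ha b hb => ?_⟩⟩
  have hfl : ∀ a : V, a.1 < (y.1 : ℝ) + 1 → (cube a).1 ≤ y.1 := by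
    intro a ha
    show ⌊a.1⌋ ≤ y.1
    rw [← Int.lt_add_one_iff, Int.floor_lt]
    push_cast
    exact ha
  show 1 * gtr (kgauge g y m) (cube a) (cube b) * 1⁻¹ ∈ _
  rw [one_mul, inv_one, mul_one]
  exact gtr_mem _ y.1 (fun c d hc => kst_mem g y m c d hc) _ _ (hfl a ha) (hfl b hb)

end KN.KQ
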