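import Pool.Agent.TH945.KQ.FDefs
import Pool.Agent.H246K2.NONAB

/-!
# From functions of two points to gauge fields (after `Pool.Agent.H246K2.NONAB`)
-/

set_option autoImplicit false

namespace KN.KQ

open Set Filter Topology K2NONAB

variable {G : Type} [Group G]

/-- the step lemma -/
theorem stepH (H : Subgroup G) (g : Gauge G) (X : Set V) (φ : V → G)
    (hφ : ∀ x ∈ X, ∃ N ∈ 𝓝 x, ∀ a ∈ N, ∀ b ∈ N,
      φ a * TT g a b * (φ b)⁻¹ ∈ H) (c : Z3) (d : Dir)
    (hX : ∀ s : ℝ, 0 ≤ s → s ≤ 1 → gam c d s ∈ X) :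
    φ (mid c) * gst g c d * (φ (mid (c + vec d)))⁻¹ ∈ H := by
  set F : ℝ → G := fun s => φ (mid c) * gtr g c (cube (gam c d s)) * (φ (gam c d s))⁻¹ with hF
  set cl : ℝ → ℝ := fun s => max 0 (min s 1) with hcl
  have hclc : Continuous cl := by fun_prop
  have hcl0 : ∀ s, 0 ≤ cl s := fun s => le_max_left _ _
  have hcl1 : ∀ s, cl s ≤ 1 := fun s => max_le zero_le_one (min_le_right _ _)
  have hloc : IsLocallyConstant (fun s : ℝ => (F (cl s) ∈ H : Prop)) := by
    rw [IsLocallyConstant.iff_eventually_eq]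
    intro s
    obtain ⟨N, hN, hab⟩ := hφ (gam c d (cl s)) (hX _ (hcl0 s) (hcl1 s))
    have hcont : Continuous (fun s => gam c d (cl s)) := (gam_cont c d).comp hclc
    filter_upwards [hcont.continuousAt.preimage_mem_nhds hN] with s' hs'
    have h1 := hab _ (mem_of_mem_nhds hN) _ hs'
    have h2 : TT g (gam c d (cl s)) (gam c d (cl s')) =
        (gtr g c (cube (gam c d (cl s))))⁻¹ * gtr g c (cube (gam c d (cl s'))) :=
      gtr_two g c d _ _ (cube_gam c d _ (hcl0 _) (hcl1 _)) (cube_gam c d _ (hcl0 _) (hcl1 _))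
    rw [h2] at h1
    have h3 : F (cl s') = F (cl s) * (φ (gam c d (cl s)) *
        ((gtr g c (cube (gam c d (cl s))))⁻¹ * gtr g c (cube (gam c d (cl s')))) *
        (φ (gam c d (cl s')))⁻¹) := by
      simp only [hF]
      group
    apply propext
    rw [h3]
    exact Subgroup.mul_mem_cancel_right _ h1
  have heq := hloc.apply_eq_of_preconnectedSpace 0 1
  have c0 : cl 0 = 0 := by simp [hcl]
  have c1 : cl 1 = 1 := by simp [hcl]
  have hF0 : F (cl 0) ∈ H := by
    rw [c0]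
    simp only [hF, gam_zero, cube_mid, gtr_self, mul_one, mul_inv_cancel]
    exact Subgroup.one_mem _
  have hF1 : F (cl 1) ∈ H := by
    exact cast heq hF0
  rw [c1] at hF1
  simp only [hF, gam_one, cube_mid, gtr_step] at hF1
  exact hF1


theorem don_of_on {H : Subgroup G} {g : Gauge G} {w : List Dir} (hw : SAP w)
    (h : On H (ps (vl w))ᶜ (TT g)) : DOn H Al g := by
  obtain ⟨φ, hφ⟩ := h
  exact ⟨fun c => φ (mid c), fun c d _ _ => stepH H g _ φ hφ c d
    (fun s _ _ => gam_not_mem w hw c d s)⟩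

theorem don_of_on_half {H : Subgroup G} {g : Gauge G} {w : List Dir} (hw : SAP w) (y : ℤ)
    (h : On H {x : V | x ∉ ps (vl w) ∧ (y : ℝ) < x.1} (TT g)) :
    DOn H (fun c => y ≤ c.1) g := by
  obtain ⟨φ, hφ⟩ := h
  refine ⟨fun c => φ (mid c), fun c d h1 h2 => stepH H g _ φ hφ c d fun s h0 h3 => ?_⟩
  refine ⟨gam_not_mem w hw c d s, ?_⟩
  have e1 : (y : ℝ) ≤ c.1 := by exact_mod_cast h1
  have e2 : (y : ℝ) ≤ c.1 + (vec d).1 := by exact_mod_cast h2
  show (y : ℝ) < (c.1 : ℝ) + 1 / 2 + s * ((vec d).1 : ℝ)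
  nlinarith

end KN.KQ
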