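import Pool.Agent.TH945.KQ.FDefs
import Pool.Agent.H246KN.GL2

/-!
# The two summands of a connected sum change places
-/

set_option autoImplicit false

namespace KN.KQ

open Finset Filter Topology GL2
open scoped Classical

/-- the rotated left polygon -/
def swV (l1 l2 : List Dir) : List Dir := (l2 ++ l1).map rR

theorem sw_facing {l1 v l2 : List Dir} (hF : Facing l1 v l2) :
    Facing [] (swV l1 l2) (v.map rR) ∧
      Same (vl (l1 ++ .zp :: l2)) (vl (.zm :: swV l1 l2)) := by
  obtain ⟨hA, hAx, hB, hBx⟩ := hF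
  -- the right polygon, rotated
  obtain ⟨hB', sB⟩ := SAP_map c_words hB
  have eB : (Dir.zm :: v).map rR = .zp :: v.map rR := rfl
  rw [eB] at hB' sB
  -- the left polygon, rotated
  have hrotA : (l1 ++ .zp :: l2).rotate l1.length = .zp :: (l2 ++ l1) := by
    rw [rotate_append]; simp
  obtain ⟨hA1, sA1⟩ := SAP_rot c_words hA l1.length
  rw [hrotA] at hA1 sA1
  obtain ⟨hA2, sA2⟩ := SAP_map c_words hA1
  have eA : (Dir.zp :: (l2 ++ l1)).map rR = .zm :: swV l1 l2 := rfl
  rw [eA] at hA2 sA2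
  refine ⟨⟨hB', ?_, hA2, ?_⟩, sA1.trans sA2⟩
  · intro p hp
    have hpos : pos v + vec .zm = 0 := hB.2.1
    have hp1 : (pos v).1 = 0 := by
      have := congrArg Prod.fst hpos
      simpa [vec] using this
    rw [pos_map]
    simp only [R, hp1, neg_zero]
    rw [List.nil_append, path, List.mem_cons] at hp
    rcases hp with rfl | hp
    · rw [pos_map]; simp [R, vec, hp1]
    · rw [path_map, List.mem_map] at hp
      obtain ⟨q, hq, rfl⟩ := hp
      have := hBx q hq
      simp only [R]; omega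
  · intro p hp
    rw [swV, path_map, List.mem_map] at hp
    obtain ⟨q, hq, rfl⟩ := hp
    have hpos : pos (l1 ++ .zp :: l2) = 0 := hA.2.1
    rw [pos_append, pos] at hpos
    have hp1 : (pos l1).1 + (pos l2).1 = 0 := by
      have := congrArg Prod.fst hpos
      simpa [vec] using this
    have hq1 : q.1 ≤ 0 := by
      rw [mem_path_suffix] at hq
      obtain ⟨a, b, hab, rfl⟩ := hq
      rw [List.append_eq_append_iff] at hab
      rcases hab with ⟨c, h1, h2⟩ | ⟨c, h1, h2⟩
      · -- `b` is a suffix of `l1`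
        have hm : pos (b ++ .zp :: l2) ∈ path (l1 ++ .zp :: l2) := by
          rw [mem_path_suffix]
          exact ⟨c, b ++ .zp :: l2, by rw [h2]; simp, rfl⟩
        have := hAx _ hm
        rw [pos_append, pos] at this
        simp only [Prod.fst_add, vec, add_zero] at this
        omega
      · -- `b = c ++ l1`, `c` a suffix of `l2`
        have hm : pos c ∈ path (l1 ++ .zp :: l2) := by
          rw [mem_path_suffix]
          exact ⟨l1 ++ .zp :: a, c, by rw [h1]; simp, rfl⟩
        have := hAx _ hm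
        rw [h2, pos_append, Prod.fst_add]
        omega
    simp only [R]; omega

/-! ### edges -/

theorem eg_rot {A B : List Dir} (h0 : pos (A ++ B) = 0) {q : Z3} {f : Dir}
    (h : Eg (A ++ B) q f) : Eg (B ++ A) (q - pos B) f := by
  have hAB : pos A + pos B = 0 := by rwa [pos_append] at h0
  -- one decomposition
  have key : ∀ (g : Dir) (l1 l2 : List Dir), A ++ B = l1 ++ g :: l2 →
      ∃ m1 m2, B ++ A = m1 ++ g :: m2 ∧ pos m2 = pos l2 - pos B := by
    intro g l1 l2 hab
    rw [List.append_eq_append_iff] at hab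
    rcases hab with ⟨c, h1, h2⟩ | ⟨c, h1, h2⟩
    · -- `B = c ++ g :: l2`
      refine ⟨c, l2 ++ A, by rw [h2]; simp, ?_⟩
      rw [pos_append, eq_sub_iff_add_eq, add_assoc, hAB, add_zero]
    · cases c with
      | nil =>
        rw [List.nil_append] at h2
        refine ⟨[], l2 ++ A, by rw [← h2]; simp, ?_⟩
        rw [pos_append, eq_sub_iff_add_eq, add_assoc, hAB, add_zero]
      | cons x c =>
        rw [List.cons_append, List.cons.injEq] at h2
        obtain ⟨rfl, rfl⟩ := h2
        refine ⟨B ++ l1, c, by rw [h1]; simp, ?_⟩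
        rw [pos_append]
        abel
  obtain ⟨l1, l2, ⟨h1, h2⟩ | ⟨h1, h2⟩⟩ := h
  · obtain ⟨m1, m2, e1, e2⟩ := key _ _ _ h1
    exact ⟨m1, m2, Or.inl ⟨e1, by rw [e2, h2]⟩⟩
  · obtain ⟨m1, m2, e1, e2⟩ := key _ _ _ h1
    exact ⟨m1, m2, Or.inr ⟨e1, by rw [e2, h2]; abel⟩⟩

theorem rR_neg (f : Dir) : rR (neg f) = neg (rR f) := by cases f <;> rfl

theorem rR_rR (f : Dir) : rR (rR f) = f := by cases f <;> rfl

theorem eg_map {w : List Dir} {q : Z3} {f : Dir} (h : Eg w q f) :
    Eg (w.map rR) (R q) (rR f) := by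
  obtain ⟨l1, l2, ⟨h1, h2⟩ | ⟨h1, h2⟩⟩ := h
  · refine ⟨l1.map rR, l2.map rR, Or.inl ⟨by rw [h1]; simp, by rw [pos_map, h2]⟩⟩
  · refine ⟨l1.map rR, l2.map rR, Or.inr ⟨by rw [h1, ← rR_neg]; simp, ?_⟩⟩
    rw [pos_map, h2, R_add, R_vec]

/-- the symmetry of the space -/
def hsw (t : Z3) : V ≃ₜ V where
  toFun x := ((t.1 : ℝ) - x.1, x.2.1 - t.2.1, (t.2.2 : ℝ) - x.2.2)
  invFun x := ((t.1 : ℝ) - x.1, x.2.1 + t.2.1, (t.2.2 : ℝ) - x.2.2)
  left_inv x := by ext <;> simp
  right_inv x := by ext <;> simp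
  continuous_toFun := by fun_prop
  continuous_invFun := by fun_prop

theorem hsw_lerp (t q : Z3) (f : Dir) (u : ℝ) :
    hsw t (lerp (emb q) (emb (q + vec f)) u) =
      lerp (emb (R (q - t))) (emb (R (q - t) + vec (rR f))) u := by
  rw [R_vec]
  show ((t.1 : ℝ) - _, _ - (t.2.1 : ℝ), (t.2.2 : ℝ) - _) = _
  ext
  · simp [lerp, emb, R]; ring
  · simp [lerp, emb, R]; ring
  · simp [lerp, emb, R]; ring

theorem hsw_symm_lerp (t q : Z3) (f : Dir) (u : ℝ) :
    (hsw t).symm (lerp (emb q) (emb (q + vec f)) u) =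
      lerp (emb (R q + t)) (emb (R q + t + vec (rR f))) u := by
  rw [R_vec]
  show ((t.1 : ℝ) - _, _ + (t.2.1 : ℝ), (t.2.2 : ℝ) - _) = _
  ext
  · simp [lerp, emb, R]; ring
  · simp [lerp, emb, R]; ring
  · simp [lerp, emb, R]; ring

/-- the connected sum and the one with the summands in the other order have the same shape -/
theorem sw_ps {l1 v l2 : List Dir} (hF : Facing l1 v l2) :
    hsw (pos l2 + (1, 0, 0)) '' ps (vl (join l1 v l2)) =
      ps (vl (join [] (swV l1 l2) (v.map rR))) := by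
  have hJ : SAP (join l1 v l2) := S_glueSAP_proof l1 v l2 hF
  have hJ' : SAP (join [] (swV l1 l2) (v.map rR)) := S_glueSAP_proof _ _ _ (sw_facing hF).1
  set A : List Dir := l1 ++ .xm :: v with hA
  set B : List Dir := .xp :: l2 with hB
  have eJ : join l1 v l2 = A ++ B := by simp [join, hA, hB]
  have eJ' : join [] (swV l1 l2) (v.map rR) = (B ++ A).map rR := by
    simp only [join, swV, hA, hB, List.nil_append, List.map_append, List.map_cons, List.append_assoc,
      List.cons_append]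
    rfl
  have ht : pos B = pos l2 + (1, 0, 0) := rfl
  have h0 : pos (A ++ B) = 0 := by rw [← eJ]; exact hJ.2.1
  have h0' : pos (B ++ A) = 0 := by
    rw [pos_append] at h0 ⊢
    rw [add_comm]; exact h0
  rw [← ht]
  apply Set.Subset.antisymm
  · rintro _ ⟨x, hx, rfl⟩
    obtain ⟨q, f, u, -, hE, hu0, hu1, rfl⟩ := K3XBOX.ps_edge _ hJ x hx
    rw [hsw_lerp]
    refine K2GAUGE.mem_ps _ hJ' _ _ ?_ u hu0 hu1
    rw [eJ']
    rw [eJ] at hE
    exact eg_map (eg_rot h0 hE)
  · intro x hx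
    refine ⟨(hsw (pos B)).symm x, ?_, (hsw (pos B)).apply_symm_apply x⟩
    obtain ⟨q, f, u, -, hE, hu0, hu1, rfl⟩ := K3XBOX.ps_edge _ hJ' x hx
    rw [hsw_symm_lerp]
    refine K2GAUGE.mem_ps _ hJ _ _ ?_ u hu0 hu1
    rw [eJ]
    rw [eJ'] at hE
    have h1 := eg_map hE
    rw [List.map_map, show rR ∘ rR = id from funext rR_rR, List.map_id] at h1
    have h2 := eg_rot h0' h1
    have h3 : R q - pos A = R q + pos B := by
      rw [pos_append] at h0
      rw [sub_eq_add_neg, neg_eq_of_add_eq_zero_right h0]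
    rwa [h3] at h2

end KN.KQ
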