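import Pool.Agent.TH945.KQ.YALL

/-!
# Knots that are cyclic for a group do not have summands that are not
-/

set_option autoImplicit false

namespace KN.KQ

open Finset Filter Topology
open scoped Classical

/-- some locally flat function with values in `G` off the polygon has non-cyclic holonomy: there is
a homomorphism of the knot group to `G` with non-cyclic image -/
def NAG (G : Type) [Group G] (l : List V) : Prop :=
  ∃ T : V → V → G, Flat (ps l)ᶜ T ∧ ¬ AbOn (ps l)ᶜ T

variable {G : Type} [Group G]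

theorem nag_homeo {l l' : List V} (h : V ≃ₜ V) (hh : h '' ps l = ps l') (hl : NAG G l) :
    NAG G l' := by
  obtain ⟨T, hflat, hab⟩ := hl
  refine ⟨fun a b => T (h.symm a) (h.symm b), ?_, fun hab' => hab ?_⟩
  · intro x hx
    have hx' : h.symm x ∈ (ps l)ᶜ := by
      intro hcon
      apply hx
      rw [← hh]
      exact ⟨h.symm x, hcon, h.apply_symm_apply x⟩
    obtain ⟨N, hN, hN2⟩ := hflat (h.symm x) hx'
    refine ⟨h.symm ⁻¹' N, h.symm.continuous.continuousAt hN, ?_⟩
    intro a ha b hb c hc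
    exact hN2 _ ha _ hb _ hc
  · obtain ⟨φ', κ, hφ⟩ := hab'
    refine ⟨fun a => φ' (h a), κ, ?_⟩
    intro x hx
    have hx' : h x ∈ (ps l')ᶜ := by
      intro hcon
      apply hx
      rw [← hh] at hcon
      obtain ⟨y, hy, hyx⟩ := hcon
      rwa [← h.injective hyx]
    obtain ⟨N, hN, hN2⟩ := hφ (h x) hx'
    refine ⟨h ⁻¹' N, h.continuous.continuousAt hN, ?_⟩
    intro a ha b hb
    have h3 := hN2 (h a) ha (h b) hb
    simpa only [Homeomorph.symm_apply_apply] using h3

theorem nag_same {l l' : List V} (hs : Same l l') (hl : NAG G l) : NAG G l' := by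
  obtain ⟨h, hh⟩ := d_amb _ _ hs
  exact nag_homeo h hh hl

theorem nag_join {l1 v l2 : List Dir} (hF : Facing l1 v l2) (hk : NAG G (vl (.zm :: v))) :
    NAG G (vl (join l1 v l2)) := by
  obtain ⟨T, hT, hnA⟩ := hk
  have hSv : SAP (.zm :: v) := hF.2.2.1
  obtain ⟨g, hg, hgc⟩ := e_disc G T _ hSv hT
  have hnc : ¬ Cyc g := fun h => hnA (hgc h)
  obtain ⟨g', hg', h1, h2, h3⟩ := X_norm_proof G g v hF.2.2.2 hSv hg
  have hK := e_kflat G g' l1 v l2 hF hg' h1 h2
  have hSJ : SAP (join l1 v l2) := S_glueSAP_proof l1 v l2 hF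
  have hflat := d_gauge G _ _ hSJ hK
  refine ⟨_, hflat, fun hab => ?_⟩
  have hcy := X_cyc_proof G _ _ hSJ hab
  exact hnc (h3 (X_kcyc_proof G g' l1 v l2 hF hg' h1 h2 hcy))

/-- no polygon all of whose locally flat functions are cyclic has a summand with one that is not -/
theorem noM_of_cyclic {𝒬 : List V → Prop} (hQ : ∀ l, 𝒬 l → ¬ NAG G l) (ks : ℕ → List V) (N : ℕ)
    (hk : ∀ i < N, NAG G (ks i)) : NoM 𝒬 ks N 1 := by
  rintro σ hσ l hl ⟨l1, v, l2, hF, -, hs, hj⟩
  apply hQ l hl
  refine nag_same hj.symm (nag_join hF (nag_same hs.symm (hk _ (hσ 0 one_pos))))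

/-- every locally flat function off an unknotted polygon is cyclic -/
theorem unknot_cyclic {w : List Dir} (hw : SAP w) (hU : U w) : ¬ NAG G (vl w) := by
  rintro ⟨T, hT, hn⟩
  exact hn (d_unab w hw hU G T hT)

end KN.KQ
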