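import Pool.Agent.TH945.KQ.FDISC
import Pool.Agent.TH945.KQ.FNORM
import Pool.Agent.TH945.KQ.FKCYC
import Pool.Agent.TH945.KQ.FSTEP
import Pool.Agent.TH945.KQ.FSWAP
import Pool.Agent.TH945.KQ.FLEFT
import Pool.Agent.TH945.KQ.GCYC

/-!
# A new summand gives a new function
-/

set_option autoImplicit false

namespace KN.KQ

open Filter Topology
open scoped Classical

variable {G : Type} [Group G]

/-- a function off the right polygon extends to the connected sum; on the left it is cyclic -/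
theorem extend {l1 v l2 : List Dir} (hF : Facing l1 v l2) (T : V → V → G)
    (hT : Flat (ps (vl (.zm :: v)))ᶜ T) : ∃ (T' : V → V → G) (τ : G),
    Flat (ps (vl (join l1 v l2)))ᶜ T' ∧
    On (Subgroup.zpowers τ) {x : V | x.1 < ((pos l2).1 : ℝ) + 1} T' ∧
    ∀ H : Subgroup G, On H {x : V | x ∉ ps (vl (join l1 v l2)) ∧ ((pos l2).1 : ℝ) < x.1} T' →
      On H (ps (vl (.zm :: v)))ᶜ T := by
  have hS : SAP (.zm :: v) := hF.2.2.1
  have hJ : SAP (join l1 v l2) := S_glueSAP_proof l1 v l2 hF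
  obtain ⟨g, hg, hgT⟩ := disc d_convex T_pot2_proof X_box_proof G T _ hS hT
  obtain ⟨g', hg', e1, e0, hgg⟩ := norm_gauge G g v hF.2.2.2 hg
  have hK := e_kflat G g' l1 v l2 hF hg' e1 e0
  refine ⟨_, _, d_gauge G _ _ hJ hK, left_on g' (pos l2) _, fun H hH => ?_⟩
  exact hgT H (hgg H (kcyc hF e1 e0 (don_of_on_half hJ _ hH)))

/-- the function on the left polygon extends, and is cyclic on the right -/
theorem extend' {l1 v l2 : List Dir} (hF : Facing l1 v l2) (T : V → V → G)
    (hT : Flat (ps (vl (l1 ++ .zp :: l2)))ᶜ T) : ∃ (T' : V → V → G) (τ : G),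
    Flat (ps (vl (join l1 v l2)))ᶜ T' ∧
    On (Subgroup.zpowers τ) {x : V | ((pos l2).1 : ℝ) < x.1} T' ∧
    ∀ H : Subgroup G, On H (ps (vl (join l1 v l2)))ᶜ T' →
      On H (ps (vl (l1 ++ .zp :: l2)))ᶜ T := by
  obtain ⟨hF', hs⟩ := sw_facing hF
  obtain ⟨h, hh⟩ := d_amb _ _ hs
  obtain ⟨T1, τ, f1, f2, f3⟩ := extend hF' _ (flat_homeo h hh hT)
  have hps := sw_ps hF
  set k := hsw (pos l2 + (1, 0, 0)) with hk
  have hps' : k.symm '' ps (vl (join [] (swV l1 l2) (v.map GL2.rR))) = ps (vl (join l1 v l2)) := by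
    rw [← hps, ← Set.image_comp]
    simp
  have hback : ∀ x, (k.symm.symm) x = k x := fun x => rfl
  refine ⟨fun a b => T1 (k a) (k b), τ, ?_, ?_, ?_⟩
  · exact flat_homeo k.symm hps' f1
  · refine on_homeo k (Y := {x : V | x.1 < ((pos (v.map GL2.rR)).1 : ℝ) + 1}) ?_ ?_
    · intro x hx
      have hpos : pos v + vec .zm = 0 := hF.2.2.1.2.1
      have hp1 : (pos v).1 = 0 := by
        have := congrArg Prod.fst hpos
        simpa [vec] using this
      show (((pos l2 + (1, 0, 0)).1 : ℤ) : ℝ) - x.1 < ((pos (v.map GL2.rR)).1 : ℝ) + 1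
      rw [GL2.pos_map]
      have hx' : ((pos l2).1 : ℝ) < x.1 := hx
      simp only [GL2.R, hp1, Prod.fst_add]
      push_cast
      linarith
    · simpa only [Homeomorph.apply_symm_apply] using f2
  · intro H hH
    refine on_homeo h (compl_homeo h hh) (f3 H ?_)
    refine On.mono (X := (ps (vl (join [] (swV l1 l2) (v.map GL2.rR))))ᶜ) ?_ (fun x hx => hx.1)
    refine on_homeo k.symm (compl_homeo k.symm hps') ?_
    exact hH

/-- one more function -/
theorem ind_join {l1 v l2 : List Dir} (hF : Facing l1 v l2) {m : ℕ}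
    (hl : Ind G m (vl (l1 ++ .zp :: l2))) (hr : NAG G (vl (.zm :: v))) :
    Ind G (m + 1) (vl (join l1 v l2)) := by
  obtain ⟨ι, _, hm, T, hT, hn⟩ := hl
  obtain ⟨S, hS, hnS⟩ := hr
  obtain ⟨T', τ, f1, f2, f3⟩ := extend' hF T hT
  obtain ⟨S', -, s1, -, s3⟩ := extend hF S hS
  refine ⟨Option ι, inferInstance, by rw [Fintype.card_option, hm],
    fun a b o => o.elim (S' a b) (T' a b), ?_, ?_⟩
  · intro x hx
    obtain ⟨N, hN, hN2⟩ := f1 x hx
    obtain ⟨M, hM, hM2⟩ := s1 x hx
    refine ⟨N ∩ M, inter_mem hN hM, fun a ha b hb c hc => ?_⟩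
    funext o
    cases o with
    | none => exact hM2 a ha.2 b hb.2 c hc.2
    | some i => exact congrFun (hN2 a ha.1 b hb.1 c hc.1) i
  · -- a new function is not equivalent to the old ones
    have key : ∀ i : ι, ∀ φ : V → Option ι → G, ¬ ∀ x ∈ (ps (vl (join l1 v l2)))ᶜ, ∃ N ∈ 𝓝 x,
        ∀ a ∈ N, ∀ b ∈ N, φ a (some i) * T' a b i * (φ b (some i))⁻¹ =
          φ a none * S' a b * (φ b none)⁻¹ := by
      intro i φ hφ
      apply hnS
      obtain ⟨ψ, hψ⟩ := f2
      have hon : On (Subgroup.zpowers (τ i))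
          {x : V | x ∉ ps (vl (join l1 v l2)) ∧ ((pos l2).1 : ℝ) < x.1} S' := by
        refine ⟨fun a => ψ a i * (φ a (some i))⁻¹ * φ a none, ?_⟩
        rintro x ⟨hx1, hx2⟩
        obtain ⟨N, hN, hN2⟩ := hφ x hx1
        obtain ⟨M, hM, hM2⟩ := hψ x hx2
        refine ⟨N ∩ M, inter_mem hN hM, fun a ha b hb => ?_⟩
        have h1 := hN2 a ha.1 b hb.1
        obtain ⟨z, hz⟩ := Subgroup.mem_zpowers_iff.1 (hM2 a ha.2 b hb.2)
        have h2 : (τ i) ^ z = ψ a i * T' a b i * (ψ b i)⁻¹ := by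
          have := congrFun hz i
          simpa using this
        refine Subgroup.mem_zpowers_iff.2 ⟨z, ?_⟩
        rw [h2]
        have h3 : T' a b i = (φ a (some i))⁻¹ * (φ a none * S' a b * (φ b none)⁻¹) *
            φ b (some i) := by
          rw [← h1]
          group
        rw [h3]
        group
      obtain ⟨ψ', hψ'⟩ := s3 _ hon
      exact ⟨ψ', τ i, hψ'⟩
    intro o o' hoo hon
    obtain ⟨φ, hφ⟩ := hon
    cases o with
    | none =>
      cases o' with
      | none => exact hoo rfl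
      | some i =>
        apply key i φ
        intro x hx
        obtain ⟨N, hN, hN2⟩ := hφ x hx
        exact ⟨N, hN, fun a ha b hb => (mem_Eqs.1 (hN2 a ha b hb)).symm⟩
    | some i =>
      cases o' with
      | none =>
        apply key i φ
        intro x hx
        obtain ⟨N, hN, hN2⟩ := hφ x hx
        exact ⟨N, hN, fun a ha b hb => mem_Eqs.1 (hN2 a ha b hb)⟩
      | some j =>
        refine hn i j (fun h => hoo (by rw [h])) (f3 _ ⟨fun a k => φ a (some k), ?_⟩)
        intro x hx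
        obtain ⟨N, hN, hN2⟩ := hφ x hx
        exact ⟨N, hN, fun a ha b hb => mem_Eqs.1 (hN2 a ha b hb)⟩

theorem ind_sums (ks : ℕ → List V) : ∀ (M : ℕ) (l : List V),
    (∀ i < M, NAG G (ks i)) → SumsC (fun _ => True) ks M l → Ind G (M + 1) l := by
  intro M
  induction M with
  | zero => intro l _ _; exact ind_one l
  | succ M ih =>
    rintro l hk ⟨l1, v, l2, hF, ht, hs, hj⟩
    exact ind_same hj.symm (ind_join hF (ih _ (fun i hi => hk i (Nat.lt_succ_of_lt hi)) ht)
      (nag_same hs.symm (hk M (Nat.lt_succ_self M))))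

end KN.KQ
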