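import Pool.Agent.TH945.KQ.YALL

/-!
# Connected sums over a class of knots: uniqueness, existence, orientations, exponents
-/

set_option autoImplicit false

namespace KN.KQ

open Finset Filter Topology
open scoped Classical

variable {𝒬 : List V → Prop}

/-! ### uniqueness -/

/-- the oriented type of a polygon -/
def Ty (k : List V) : List V → Prop := fun l => Same l k

theorem Ty_TC (k : List V) : TC (Ty k) := fun _ _ h h1 => h.symm.trans h1

open K2TOWU in
theorem sums_unique (k : List V) (ks : ℕ → List V) : ∀ (N : ℕ) (l l' : List V),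
    SumsC (Ty k) ks N l → SumsC (Ty k) ks N l' → Same l l' := by
  intro N
  induction N with
  | zero =>
    intro l l' h h'
    exact Same.trans h (Same.symm h')
  | succ N ih =>
    rintro l l' ⟨l1, v, l2, hF, ht, hk, hl⟩ ⟨m1, v', m2, hF', ht', hk', hl'⟩
    have h1 := ih _ _ ht ht'
    have h2 : Same (vl (.zm :: v)) (vl (.zm :: v')) := hk.trans hk'.symm
    have hFm : Facing l1 v' l2 := ⟨hF.1, hF.2.1, hF'.2.2.1, hF'.2.2.2⟩
    have h3 := join_same hF hFm h2
    have h4 := d_wconL v'.length l1 l2 m1 m2 v' (bgL _ hF.1 hF.2.1) (bgL _ hF'.1 hF'.2.1)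
      (smR hF'.2.2.1 hF'.2.2.2) h1
    exact hl.trans ((h3.trans h4).trans hl'.symm)

/-! ### existence -/

theorem sums_exist (hQ : TC 𝒬) (hne : ∃ w, SAP w ∧ 𝒬 (vl w)) (ks : ℕ → List V) : ∀ N : ℕ,
    (∀ i < N, ∃ w, SAP w ∧ Same (vl w) (ks i)) → ∃ w, SAP w ∧ SumsC 𝒬 ks N (vl w) := by
  intro N
  induction N with
  | zero => intro _; exact hne
  | succ N ih =>
    intro h
    obtain ⟨w, hw, ht⟩ := ih (fun i hi => h i (Nat.lt_succ_of_lt hi))
    obtain ⟨l1, l2, h1, h2, h3⟩ := K3YTYPE.rep_R hw
    obtain ⟨L, v, hv, hvk⟩ := T_vex_proof (ks N) (h N (Nat.lt_succ_self N))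
    have hF : Facing l1 v l2 := ⟨h1, h2, hv.1, fun p hp => (hv.2 p hp).1⟩
    exact ⟨join l1 v l2, S_glueSAP_proof l1 v l2 hF, l1, v, l2, hF,
      K3YTYPE.sums_same hQ ht h3.symm, hvk, Same.refl _⟩

/-! ### orientations -/

theorem back_back (w : List Dir) : back (back w) = w := by
  unfold back
  rw [List.map_reverse, List.reverse_reverse, List.map_map]
  have : neg ∘ neg = id := by funext d; simp
  rw [this, List.map_id]

theorem path_tail_eq {w : List Dir} (h : w ≠ []) : path w.tail = (path w).tail := by
  cases w with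
  | nil => exact absurd rfl h
  | cons d w => rfl

theorem back_same {w : List Dir} (hw : SAP w) : SAP (back w) ∧
    Same (vl (back w)) (vl w).reverse := by
  obtain ⟨h4, h0, hn⟩ := hw
  have hw0 : w ≠ [] := by rintro rfl; simp at h4
  have hpb : path (back w) = (path w).reverse := by
    rw [LAYU.path_back w, h0]
    simp
  have hlen : (back w).length = w.length := by simp [back]
  have hb0 : back w ≠ [] := by
    intro h
    rw [h] at hlen
    simp at hlen
    omega
  have htl := path_tail_eq hw0
  have hP : path w.tail = LAYU.P w.tail ++ [0] := LAYU.path_eq _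
  have hpw : path w = 0 :: path w.tail := by
    obtain ⟨d, w', rfl⟩ : ∃ d w', w = d :: w' := by
      cases w with
      | nil => simp at h4
      | cons d w' => exact ⟨d, w', rfl⟩
    have : path (d :: w') = pos (d :: w') :: path w' := rfl
    rw [this, h0]
    rfl
  have hpb2 : path (back w) = 0 :: ((LAYU.P w.tail).reverse ++ [0]) := by
    rw [hpb, hpw, hP]
    simp
  have htb : path (back w).tail = (LAYU.P w.tail).reverse ++ [0] := by
    rw [path_tail_eq hb0, hpb2]
    rfl
  have hnP : (LAYU.P w.tail ++ [(0 : Z3)]).Nodup := by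
    rw [← hP, htl]; exact hn
  constructor
  · refine ⟨by rw [hlen]; exact h4, ?_, ?_⟩
    · have h1 : (path (back w)).head (path_ne_nil _) = pos (back w) := head_path _
      rw [← h1]
      simp only [hpb2, List.head_cons]
    · rw [hpb2, List.tail_cons]
      have h1 : ((LAYU.P w.tail ++ [(0 : Z3)]).reverse).Nodup := List.nodup_reverse.2 hnP
      have h2 : (LAYU.P w.tail ++ [(0 : Z3)]).reverse = 0 :: (LAYU.P w.tail).reverse := by simp
      rw [h2] at h1
      have h3 : ((LAYU.P w.tail).reverse ++ [(0 : Z3)]).Perm (0 :: (LAYU.P w.tail).reverse) :=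
        List.perm_append_singleton 0 _
      exact h3.nodup_iff.2 h1
  · have h1 : vl (back w) = (LAYU.P w.tail).reverse.map emb ++ [emb 0] := by
      unfold vl
      rw [htb, List.map_append]
      rfl
    have h2 : (vl w).reverse = emb 0 :: (LAYU.P w.tail).reverse.map emb := by
      unfold vl
      rw [hP, List.map_append, List.reverse_append, List.map_reverse]
      rfl
    have h3 : Simple (vl w).reverse := REV.simple_rev _ (S_simple_proof w ⟨h4, h0, hn⟩)
    rw [h1, h2]
    rw [h2] at h3
    exact (Relation.EqvGen.rel _ _ (Move.rot _ _ h3)).symm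

/-- both orientations -/
theorem a_le_two (k : List V) (n : ℕ) : a (KT k) n ≤ 2 * a (fun w => Ty k (vl w)) n := by
  unfold a
  have h1 : K (KT k) n ⊆ K (fun w => Ty k (vl w)) n ∪ (K (fun w => Ty k (vl w)) n).image back := by
    intro w hw
    obtain ⟨h1, h2, h3⟩ := mem_K.1 hw
    rw [Finset.mem_union]
    rcases h3 with h3 | h3
    · exact Or.inl (mem_K.2 ⟨h1, h2, h3⟩)
    · right
      rw [Finset.mem_image]
      refine ⟨back w, mem_K.2 ⟨by simp [back, h1], (back_same h2).1, ?_⟩, back_back w⟩
      have h4 := (c_rev _ _).2 h3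
      rw [List.reverse_reverse] at h4
      exact (back_same h2).2.trans h4
  refine (Finset.card_le_card h1).trans ((Finset.card_union_le _ _).trans ?_)
  have h2 := Finset.card_image_le (s := K (fun w => Ty k (vl w)) n) (f := back)
  omega

end KN.KQ
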