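import Pool.Agent.TH945.KQ.FBND
import Pool.Agent.TH945.KQ.FGROW
import Pool.Agent.TH945.KQ.EXPO

/-!
# Bounded divisibility of a knot by knots with non-cyclic finite images
-/

set_option autoImplicit false

namespace KN.KQ

open Filter Topology
open scoped Classical

/-- the knot group has a homomorphism to a finite group whose image is not cyclic -/
def FNAG (l : List V) : Prop := ∃ (G : Type) (_ : Group G) (_ : Finite G), NAG G l

/-- from a factor to the product -/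
theorem nag_pi {ι : Type} (G : ι → Type) [∀ i, Group (G i)] (i : ι) {l : List V}
    (h : NAG (G i) l) : NAG (∀ i, G i) l := by
  obtain ⟨T, hT, hn⟩ := h
  refine ⟨fun a b => Pi.mulSingle i (T a b), ?_, ?_⟩
  · intro x hx
    obtain ⟨N, hN, hN2⟩ := hT x hx
    refine ⟨N, hN, fun a ha b hb c hc => ?_⟩
    show Pi.mulSingle i (T a b) * Pi.mulSingle i (T b c) = Pi.mulSingle i (T a c)
    rw [← Pi.mulSingle_mul, hN2 a ha b hb c hc]
  · rintro ⟨φ, κ, hφ⟩
    apply hn
    refine ⟨fun a => φ a i, κ i, fun x hx => ?_⟩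
    obtain ⟨N, hN, hN2⟩ := hφ x hx
    refine ⟨N, hN, fun a ha b hb => ?_⟩
    obtain ⟨z, hz⟩ := Subgroup.mem_zpowers_iff.1 (hN2 a ha b hb)
    refine Subgroup.mem_zpowers_iff.2 ⟨z, ?_⟩
    have := congrFun hz i
    simpa using this

/-- finitely many knots have a common finite group -/
theorem fnag_common (ks : ℕ → List V) (N : ℕ) (hk : ∀ i < N, FNAG (ks i)) :
    ∃ (G : Type) (_ : Group G) (_ : Finite G), ∀ i < N, NAG G (ks i) := by
  choose! G hG hfin hn using hk
  classical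
  let G' : Fin N → Type := fun i => G i.1
  letI : ∀ i : Fin N, Group (G' i) := fun i => hG i.1 i.2
  haveI : ∀ i : Fin N, Finite (G' i) := fun i => hfin i.1 i.2
  exact ⟨∀ i, G' i, inferInstance, inferInstance, fun i hi => nag_pi G' ⟨i, hi⟩ (hn i hi)⟩

/-- bounded divisibility -/
theorem noM_finite {w₀ : List Dir} (hw₀ : SAP w₀) (ks : ℕ → List V) (N : ℕ)
    (hk : ∀ i < N, FNAG (ks i)) : ∃ M : ℕ, NoM (Ty (vl w₀)) ks N M := by
  obtain ⟨G, _, _, hG⟩ := fnag_common ks N hk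
  obtain ⟨L, v, hv, hs⟩ := T_vex_proof (vl w₀) ⟨w₀, hw₀, Same.refl _⟩
  obtain ⟨B, hB⟩ := ind_bound (G := G) v (fun p hp => (hv.2 p hp).1) hv.1
  refine ⟨B, ?_⟩
  intro σ hσ l hl hsum
  have h1 : Ind G (B + 1) l := ind_sums (fun j => ks (σ j)) B l (fun j hj => hG _ (hσ j hj)) hsum
  have h2 := hB _ (ind_same (Same.trans hl hs.symm) h1)
  omega

/-- the trefoil -/
theorem fnag_tre : SAP (.zm :: v0) ∧ FNAG (vl (.zm :: v0)) := by
  refine ⟨K3XTRE.sap_tre, S3, inferInstance, inferInstance, TT tgauge,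
    d_gauge S3 _ _ K3XTRE.sap_tre T_tflat_proof.1, ?_⟩
  refine T_nonab_proof S3 tgauge (.zm :: v0) K3XTRE.sap_tre (0, -1, -1) [.ym, .zm, .yp, .zp]
    [.xm, .xm, .ym, .ym, .ym, .zm, .yp, .zp, .yp, .yp, .xp, .xp] (by decide) (by decide) ?_
  simp [hol, gst, tgauge, pos, vec, tel, tcov, trow]
  decide

end KN.KQ
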