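import Pool.Agent.TH945.KQ.Defs

/-!
# Task YCNT: counting words with one more block (several types)
-/

set_option autoImplicit false

namespace KN.KQ

variable {𝒬 : List V → Prop}

open Finset Filter Topology
open scoped Classical

noncomputable section

namespace K3YCNT

theorem lab_nil : lab [] = [] := rfl

theorem lab_cons_lt (f : Dir) (B : List Sz) : lab (.lt f :: B) = lab B := rfl

theorem lab_cons_bl (i : ℕ) (d f : Dir) (B : List Sz) : lab (.bl i d f :: B) = i :: lab B := rfl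

theorem lab_append (A B : List Sz) : lab (A ++ B) = lab A ++ lab B := by
  unfold lab
  rw [List.filterMap_append]

theorem lab_map (d f : Dir) (W : List Sz) : lab (W.map (rZ d f)) = lab W := by
  induction W with
  | nil => rfl
  | cons s W ih =>
    cases s with
    | lt e => rw [List.map_cons, rZ, lab_cons_lt, lab_cons_lt, ih]
    | bl i d' f' => rw [List.map_cons, rZ, lab_cons_bl, lab_cons_bl, ih]

/-- positions of the blocks -/
def bps (T : ℕ) (v : ℕ → List Dir) : List Sz → List Z3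
  | [] => []
  | .lt _ :: B => bps T v B
  | .bl _ _ _ :: B => pos (EZ T v B) :: bps T v B

theorem bps_length (T : ℕ) (v : ℕ → List Dir) (W : List Sz) :
    (bps T v W).length = (lab W).length := by
  induction W with
  | nil => rfl
  | cons s B ih =>
    cases s with
    | lt e => rw [bps, lab_cons_lt, ih]
    | bl i d f => rw [bps, lab_cons_bl, List.length_cons, List.length_cons, ih]

theorem mem_bps (T : ℕ) (v : ℕ → List Dir) (A B : List Sz) (i : ℕ) (d f : Dir) :
    pos (EZ T v B) ∈ bps T v (A ++ .bl i d f :: B) := by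
  induction A with
  | nil => simp [bps]
  | cons s A ih =>
    rw [List.cons_append]
    cases s with
    | lt e => exact ih
    | bl i' d' f' => exact List.mem_cons_of_mem _ ih

/-- a box -/
def box (r : ℕ) (q : Z3) : Finset Z3 :=
  Icc (q.1 - r) (q.1 + r) ×ˢ Icc (q.2.1 - r) (q.2.1 + r) ×ˢ Icc (q.2.2 - r) (q.2.2 + r)

theorem mem_box {r : ℕ} {p q : Z3} : p ∈ box r q ↔ near r p q := by
  unfold box near
  rw [mem_product, mem_product, mem_Icc, mem_Icc, mem_Icc, abs_le, abs_le, abs_le]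
  constructor
  · rintro ⟨⟨h1, h2⟩, ⟨h3, h4⟩, h5, h6⟩
    exact ⟨⟨by linarith, by linarith⟩, ⟨by linarith, by linarith⟩, by linarith, by linarith⟩
  · rintro ⟨⟨h1, h2⟩, ⟨h3, h4⟩, h5, h6⟩
    exact ⟨⟨by linarith, by linarith⟩, ⟨by linarith, by linarith⟩, by linarith, by linarith⟩

theorem card_box (r : ℕ) (q : Z3) : (box r q).card = (2 * r + 1) ^ 3 := by
  unfold box
  have h : ∀ x : ℤ, (x + (r : ℤ) + 1 - (x - r)).toNat = 2 * r + 1 := by
    intro x
    have : x + (r : ℤ) + 1 - (x - r) = ((2 * r + 1 : ℕ) : ℤ) := by push_cast; ring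
    rw [this, Int.toNat_natCast]
  rw [card_product, card_product, Int.card_Icc, Int.card_Icc, Int.card_Icc, h, h, h]
  ring

theorem split_unique (N : ℕ) : ∀ (A A' B B' : List Sz) (d f d' f' : Dir), N ∉ lab A →
    N ∉ lab A' → A ++ .bl N d f :: B = A' ++ .bl N d' f' :: B' → A = A' ∧ B = B' := by
  intro A
  induction A with
  | nil =>
    intro A' B B' d f d' f' _ hn h
    cases A' with
    | nil =>
      simp only [List.nil_append, List.cons.injEq] at h
      exact ⟨rfl, h.2⟩
    | cons a A' =>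
      simp only [List.nil_append, List.cons_append, List.cons.injEq] at h
      rw [← h.1, lab_cons_bl] at hn
      exact absurd List.mem_cons_self hn
  | cons s A ih =>
    intro A' B B' d f d' f' hn hn' h
    cases A' with
    | nil =>
      simp only [List.nil_append, List.cons_append, List.cons.injEq] at h
      rw [h.1, lab_cons_bl] at hn
      exact absurd List.mem_cons_self hn
    | cons a A' =>
      simp only [List.cons_append, List.cons.injEq] at h
      obtain ⟨h1, h2⟩ := h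
      subst h1
      have hm : ∀ C : List Sz, N ∉ lab (s :: C) → N ∉ lab C := by
        intro C hC hN
        apply hC
        cases s with
        | lt e => exact hN
        | bl i d f => exact List.mem_cons_of_mem _ hN
      obtain ⟨h3, h4⟩ := ih A' B B' d f d' f' (hm A hn) (hm A' hn') h2
      exact ⟨by rw [h3], h4⟩

theorem rZ_inj (hrtc : T_rtc) {d f : Dir} (h : perp d f) : Function.Injective (rZ d f) := by
  obtain ⟨⟨d', f', -, -, -, h1, -, -, -⟩, -⟩ := hrtc d f h
  have hi : ∀ s, rZ d' f' (rZ d f s) = s := by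
    intro s
    cases s <;> simp [rZ, h1]
  exact Function.LeftInverse.injective hi

theorem Rp_inj (hrtc : T_rtc) {d f : Dir} (h : perp d f) : Function.Injective (Rp d f) := by
  obtain ⟨⟨d', f', -, -, -, -, -, h1, -⟩, -⟩ := hrtc d f h
  exact Function.LeftInverse.injective h1

/-- the alternatives of `RlZ` -/
def Ra (i : Fin 3) (W : List Sz) (d f : Dir) (A B : List Sz) : Prop :=
  (i = 0 ∧ W.map (rZ d f) = A ++ .lt .zp :: B) ∨
    (i = 1 ∧ ∃ M, A = M ++ [.lt .xm] ∧ W.map (rZ d f) = M ++ .lt .zp :: .lt .xm :: B) ∨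
    (i = 2 ∧ ∃ M, B = .lt .xp :: M ∧ W.map (rZ d f) = A ++ .lt .xp :: .lt .zp :: M)

theorem exists_Ra {W : List Sz} {d f : Dir} {A B : List Sz} (h : RlZ W d f A B) :
    ∃ i : Fin 3, Ra i W d f A B := by
  rcases h with h | h | h
  · exact ⟨0, Or.inl ⟨rfl, h⟩⟩
  · exact ⟨1, Or.inr (Or.inl ⟨rfl, h⟩)⟩
  · exact ⟨2, Or.inr (Or.inr ⟨rfl, h⟩)⟩

theorem Ra_unique {i : Fin 3} {W W' : List Sz} {d f : Dir} {A B : List Sz}
    (h : Ra i W d f A B) (h' : Ra i W' d f A B) : W.map (rZ d f) = W'.map (rZ d f) := by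
  rcases h with ⟨rfl, h⟩ | ⟨rfl, M, hM, h⟩ | ⟨rfl, M, hM, h⟩
  · rcases h' with ⟨_, h'⟩ | ⟨h0, _⟩ | ⟨h0, _⟩
    · rw [h, h']
    · exact absurd h0 (by decide)
    · exact absurd h0 (by decide)
  · rcases h' with ⟨h0, _⟩ | ⟨_, M', hM', h'⟩ | ⟨h0, _⟩
    · exact absurd h0 (by decide)
    · have : M = M' := by
        rw [hM] at hM'
        exact List.append_cancel_right hM'
      rw [h, h', this]
    · exact absurd h0 (by decide)
  · rcases h' with ⟨h0, _⟩ | ⟨h0, _⟩ | ⟨_, M', hM', h'⟩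
    · exact absurd h0 (by decide)
    · exact absurd h0 (by decide)
    · have : M = M' := by
        rw [hM] at hM'
        exact (List.cons.inj hM').2
      rw [h, h', this]

theorem Ra_lab {i : Fin 3} {W : List Sz} {d f : Dir} {A B : List Sz}
    (h : Ra i W d f A B) : lab A ++ lab B = lab W ∧
      ∀ N : ℕ, (A ++ .bl N .xp .zp :: B).length = W.length := by
  have e1 := lab_map d f W
  have e2 : (W.map (rZ d f)).length = W.length := List.length_map _
  rcases h with ⟨-, h⟩ | ⟨-, M, hM, h⟩ | ⟨-, M, hM, h⟩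
  · rw [h] at e1 e2
    rw [lab_append, lab_cons_lt] at e1
    refine ⟨e1, fun N => ?_⟩
    rw [List.length_append, List.length_cons] at e2 ⊢
    omega
  · rw [h] at e1 e2
    subst hM
    rw [lab_append, lab_cons_lt, lab_cons_lt] at e1
    refine ⟨?_, fun N => ?_⟩
    · rw [lab_append, lab_cons_lt, lab_nil, List.append_nil]
      exact e1
    · simp only [List.length_append, List.length_cons, List.length_nil] at e2 ⊢
      omega
  · rw [h] at e1 e2
    subst hM
    rw [lab_append, lab_cons_lt, lab_cons_lt] at e1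
    refine ⟨?_, fun N => ?_⟩
    · rw [lab_cons_lt]
      exact e1
    · simp only [List.length_append, List.length_cons] at e2 ⊢
      omega

/-- the counting -/
theorem count (hmem : Y_mem 𝒬) (hrtc : T_rtc) (T L : ℕ) (v : ℕ → List Dir) (N n : ℕ)
    (C : List Sz → Finset Z3)
    (h : ∀ W ∈ VZ 𝒬 T L v N n, ∀ x ∈ C W, ∃ (d f : Dir) (A B : List Sz), perp d f ∧
      VaZ 𝒬 T L v (A ++ .bl N .xp .zp :: B) ∧ near 6 (pos (EZ T v B)) (Rp d f x) ∧
      RlZ W d f A B) :
    ∑ W ∈ VZ 𝒬 T L v N n, (C W).card ≤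
      (VZ 𝒬 T L v (N + 1) n).card * (6 * (6 * (3 * 13 ^ 3))) := by
  rw [← Finset.card_sigma]
  have hcard : (VZ 𝒬 T L v (N + 1) n ×ˢ ((univ : Finset Dir) ×ˢ
      ((univ : Finset Dir) ×ˢ ((univ : Finset (Fin 3)) ×ˢ box 6 0)))).card =
      (VZ 𝒬 T L v (N + 1) n).card * (6 * (6 * (3 * 13 ^ 3))) := by
    rw [card_product, card_product, card_product, card_product, card_box,
      card_univ, card_univ]
    have e1 : Fintype.card Dir = 6 := rfl
    have e2 : Fintype.card (Fin 3) = 3 := rfl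
    rw [e1, e2]
  rw [← hcard]
  apply Finset.card_le_card_of_forall_subsingleton
    (fun (p : (_ : List Sz) × Z3) (q : List Sz × Dir × Dir × Fin 3 × Z3) =>
      ∃ A B : List Sz, perp q.2.1 q.2.2.1 ∧ q.1 = A ++ .bl N .xp .zp :: B ∧ N ∉ lab A ∧
        Ra q.2.2.2.1 p.1 q.2.1 q.2.2.1 A B ∧
        q.2.2.2.2 = Rp q.2.1 q.2.2.1 p.2 - pos (EZ T v B))
  · rintro ⟨W, x⟩ hp
    rw [mem_sigma] at hp
    obtain ⟨hW, hx⟩ := hp
    simp only at hW hx
    obtain ⟨d, f, A, B, h1, h2, h3, h4⟩ := h W hW x hx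
    obtain ⟨i, hi⟩ := exists_Ra h4
    obtain ⟨k1, k2⟩ := Ra_lab hi
    rw [hmem] at hW
    have hN : N ∉ lab A ++ lab B := by
      rw [k1]
      intro hN
      have := hW.2.1.mem_iff.1 hN
      exact absurd this (by simp)
    refine ⟨(A ++ .bl N .xp .zp :: B, d, f, i, Rp d f x - pos (EZ T v B)), ?_, A, B, h1, rfl,
      fun hA => hN (List.mem_append_left _ hA), hi, rfl⟩
    simp only [mem_product, mem_univ, true_and]
    refine ⟨?_, ?_⟩
    · rw [hmem, k2 N]
      refine ⟨hW.1, ?_, h2⟩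
      rw [lab_append, lab_cons_bl]
      refine List.perm_middle.trans ?_
      rw [k1, List.range_succ]
      refine (hW.2.1.cons N).trans ?_
      exact (List.perm_append_singleton N (List.range N)).symm
    · rw [mem_box]
      unfold near at h3 ⊢
      obtain ⟨h5, h6, h7⟩ := h3
      rw [abs_sub_comm] at h5 h6 h7
      refine ⟨?_, ?_, ?_⟩
      · simpa using h5
      · simpa using h6
      · simpa using h7
  · rintro ⟨W', d, f, i, y⟩ _ ⟨W₁, x₁⟩ h1 ⟨W₂, x₂⟩ h2
    simp only [Set.mem_ofPred_eq] at h1 h2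
    obtain ⟨-, A, B, hp, e1, e2, e3, e4⟩ := h1
    obtain ⟨-, A', B', -, e1', e2', e3', e4'⟩ := h2
    rw [e1] at e1'
    obtain ⟨rfl, rfl⟩ := split_unique N A A' B B' _ _ _ _ e2 e2' e1'
    have hW : W₁ = W₂ := (List.map_injective_iff.2 (rZ_inj hrtc hp)) (Ra_unique e3 e3')
    have hx : x₁ = x₂ := by
      rw [e4] at e4'
      exact Rp_inj hrtc hp (sub_left_injective e4')
    subst hW hx
    rfl

end K3YCNT

open K3YCNT

theorem Y_cnt_proof (hcon : Y_con 𝒬) (hbas : Y_bas) (hmem : Y_mem 𝒬) (hmany : T_many)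
    (hrtc : T_rtc) : Y_cnt 𝒬 := by
  intro T L B R v hv hLL hR N
  obtain ⟨c, hc, hev⟩ := hmany R hR
  set D := ((List.range N).map (fun i => (blk T (v i)).length - 1)).sum with hD
  set r := raZ T L B with hr
  set M0 : ℕ := N * (2 * r + 1) ^ 3 with hM0
  set Q : ℕ := (6 * (6 * (3 * 13 ^ 3))) with hQ
  have hQ0 : (0 : ℝ) < Q := by
    rw [hQ]
    positivity
  refine ⟨c / (2 * Q), by positivity, ?_⟩
  have h1 := (tendsto_add_atTop_nat D).eventually hev
  have h2 : ∀ᶠ n : ℕ in atTop, (M0 : ℝ) ≤ c / 2 * (n : ℝ) ^ (2 / 3 : ℝ) := by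
    have ht : Tendsto (fun n : ℕ => c / 2 * (n : ℝ) ^ (2 / 3 : ℝ)) atTop atTop := by
      apply Tendsto.const_mul_atTop (by positivity)
      exact (tendsto_rpow_atTop (by norm_num)).comp tendsto_natCast_atTop_atTop
    exact ht.eventually_ge_atTop _
  filter_upwards [h1, h2] with n hn1 hn2
  have hC : ∀ W : List Sz, ∃ C : Finset Z3, W ∈ VZ 𝒬 T L v N n →
      (c / 2 * (n : ℝ) ^ (2 / 3 : ℝ) ≤ C.card ∧ ∀ x ∈ C, ¬ near 6 x 0 ∧
        (∃ N, Cont R {p | p ∈ path (EZ T v W)} x N) ∧ faZ T v r W x) := by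
    intro W
    by_cases hW : W ∈ VZ 𝒬 T L v N n
    swap
    · exact ⟨∅, fun h => absurd h hW⟩
    rw [hmem] at hW
    obtain ⟨hW1, hW2, hW3⟩ := hW
    have hlen : (EZ T v W).length = n + D := by
      rw [(hbas T L B v hv W).2.2.1, hW1, (hW2.map _).sum_eq]
    obtain ⟨C, hC1, hC2⟩ := hn1 (EZ T v W) hW3.ext hlen
    refine ⟨C.filter (fun x => faZ T v r W x), fun _ => ⟨?_, ?_⟩⟩
    · have hbad : (C.filter (fun x => ¬ faZ T v r W x)).card ≤ M0 := by
        have hsub : C.filter (fun x => ¬ faZ T v r W x) ⊆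
            (bps T v W).toFinset.biUnion (fun q => box r q) := by
          intro x hx
          rw [mem_filter] at hx
          obtain ⟨-, hx⟩ := hx
          unfold faZ at hx
          push Not at hx
          obtain ⟨A, B', i, d, f, hAB, hx⟩ := hx
          rw [mem_biUnion]
          refine ⟨pos (EZ T v B'), ?_, mem_box.2 hx⟩
          rw [List.mem_toFinset, hAB]
          exact mem_bps T v A B' i d f
        refine (card_le_card hsub).trans ?_
        refine (card_biUnion_le_card_mul _ _ ((2 * r + 1) ^ 3) (fun q _ => (card_box r q).le)).trans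
          ?_
        rw [hM0]
        apply Nat.mul_le_mul_right
        refine (List.toFinset_card_le _).trans ?_
        rw [bps_length, hW2.length_eq, List.length_range]
      have hsum := card_filter_add_card_filter_not (s := C) (fun x => faZ T v r W x)
      have hn3 : (n : ℝ) ^ (2 / 3 : ℝ) ≤ ((n + D : ℕ) : ℝ) ^ (2 / 3 : ℝ) := by
        apply Real.rpow_le_rpow (by positivity) _ (by norm_num)
        exact_mod_cast Nat.le_add_right _ _
      have hn4 : c * (n : ℝ) ^ (2 / 3 : ℝ) ≤ C.card :=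
        (mul_le_mul_of_nonneg_left hn3 hc.le).trans hC1
      have hb' : ((C.filter (fun x => ¬ faZ T v r W x)).card : ℝ) ≤ M0 := by
        exact_mod_cast hbad
      have hs' : ((C.filter (fun x => faZ T v r W x)).card : ℝ) +
          ((C.filter (fun x => ¬ faZ T v r W x)).card : ℝ) = C.card := by
        exact_mod_cast hsum
      linarith
    · intro x hx
      rw [mem_filter] at hx
      exact ⟨(hC2 x hx.1).1, (hC2 x hx.1).2, hx.2⟩
  choose C hC using hC
  have key := count hmem hrtc T L v N n C (by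
    intro W hW x hx
    obtain ⟨-, h3⟩ := hC W hW
    obtain ⟨h4, ⟨N', h5⟩, h6⟩ := h3 x hx
    exact hcon T L B R v hv hLL W ((hmem _ _ _ _ _ _).1 hW).2.2 x N' h5 h4 h6 N)
  have hlow : c / 2 * (n : ℝ) ^ (2 / 3 : ℝ) * (VZ 𝒬 T L v N n).card ≤
      ((∑ W ∈ VZ 𝒬 T L v N n, (C W).card : ℕ) : ℝ) := by
    push_cast
    rw [mul_comm, ← nsmul_eq_mul]
    exact Finset.card_nsmul_le_sum _ _ _ (fun W hW => (hC W hW).1)
  have key' : ((∑ W ∈ VZ 𝒬 T L v N n, (C W).card : ℕ) : ℝ) ≤ (VZ 𝒬 T L v (N + 1) n).card * Q := by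
    exact_mod_cast key
  have hfin := hlow.trans key'
  rw [div_mul_eq_mul_div, div_mul_eq_mul_div, div_le_iff₀ (by positivity)]
  calc c * (n : ℝ) ^ (2 / 3 : ℝ) * (VZ 𝒬 T L v N n).card
      = 2 * (c / 2 * (n : ℝ) ^ (2 / 3 : ℝ) * (VZ 𝒬 T L v N n).card) := by ring
    _ ≤ 2 * ((VZ 𝒬 T L v (N + 1) n).card * Q) := by linarith
    _ = (VZ 𝒬 T L v (N + 1) n).card * (2 * Q) := by ring

end

end KN.KQ
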