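import Pool.Agent.TH945.KQ.Defs

/-!
# Project K3, task YCON (helper726, adapted from WCON by helper365): a contact far from the blocks
gives a place for a new block
-/

set_option autoImplicit false

namespace KN.KQ

variable {𝒬 : List V → Prop}

open Finset Filter Topology
open scoped Classical

namespace K3YCON

theorem near_iff {d f : Dir} (h : perp d f) (r : ℕ) (p q : Z3) :
    near r (Rp d f p) (Rp d f q) ↔ near r p q := by
  obtain ⟨p1, p2, p3⟩ := p
  obtain ⟨q1, q2, q3⟩ := q
  cases d <;> cases f <;>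
    first
      | exact absurd h (by decide)
      | (simp only [near, Rp, vec, cr, Prod.fst_add, Prod.snd_add, Prod.smul_fst, Prod.smul_snd,
          smul_eq_mul, abs_le]
         constructor <;> (intro h'; omega))

theorem near_mono {r r' : ℕ} (h : r ≤ r') {p q : Z3} (hn : near r p q) : near r' p q := by
  unfold near at *
  have : (r : ℤ) ≤ r' := by exact_mod_cast h
  exact ⟨hn.1.trans this, hn.2.1.trans this, hn.2.2.trans this⟩

theorem near_tri {r s : ℕ} {p q z : Z3} (h1 : near r p q) (h2 : near s q z) :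
    near (r + s) p z := by
  unfold near at *
  simp only [abs_le] at *
  push_cast
  refine ⟨⟨?_, ?_⟩, ⟨?_, ?_⟩, ⟨?_, ?_⟩⟩ <;> omega

theorem near_symm {r : ℕ} {p q : Z3} (h1 : near r p q) : near r q p := by
  unfold near at *
  simp only [abs_le] at *
  refine ⟨⟨?_, ?_⟩, ⟨?_, ?_⟩, ⟨?_, ?_⟩⟩ <;> omega

theorem near_vec (p : Z3) (a : Dir) : near 1 (p + vec a) p := by
  unfold near
  cases a <;> simp [vec]

/-- distance at most one -/
theorem near_vv (p : Z3) : near 1 (p + vec .zp) (p + vec .xp) := by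
  unfold near
  simp [vec]

theorem faZ_mono {T : ℕ} {v : ℕ → List Dir} {r r' : ℕ} (h : r' ≤ r) {W : List Sz} {y : Z3}
    (hf : faZ T v r W y) : faZ T v r' W y := fun A B i d f he hn =>
  hf A B i d f he (near_mono h hn)

theorem faZ_near {T : ℕ} {v : ℕ → List Dir} {r s : ℕ} {W : List Sz} {y z : Z3}
    (hf : faZ T v (r + s) W y) (h : near s y z) : faZ T v r W z := fun A B i d f he hn => by
  apply hf A B i d f he
  have := near_tri h hn
  rwa [add_comm] at this

theorem split {α : Type} (X Y A B : List α) (s : α) (h : X ++ Y = A ++ s :: B) :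
    (∃ M, X = A ++ s :: M ∧ B = M ++ Y) ∨ (∃ M, A = X ++ M ∧ Y = M ++ s :: B) := by
  rw [List.append_eq_append_iff] at h
  rcases h with ⟨a', h1, h2⟩ | ⟨c', h1, h2⟩
  · right; exact ⟨a', h1, h2⟩
  · cases c' with
    | nil =>
      right
      refine ⟨[], ?_, ?_⟩
      · simpa using h1.symm
      · simpa using h2.symm
    | cons t M =>
      left
      simp only [List.cons_append, List.cons.injEq] at h2
      obtain ⟨rfl, h2⟩ := h2
      exact ⟨M, h1, h2⟩

theorem EZ_append (T : ℕ) (v : ℕ → List Dir) (A B : List Sz) :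
    EZ T v (A ++ B) = EZ T v A ++ EZ T v B := by
  simp [EZ]

theorem EZ_lt (T : ℕ) (v : ℕ → List Dir) (a : Dir) (B : List Sz) :
    EZ T v (.lt a :: B) = a :: EZ T v B := by
  simp [EZ, szw]

theorem szw_len (T : ℕ) (v : ℕ → List Dir) (s : Sz) : 1 ≤ (szw T v s).length := by
  cases s with
  | lt f => simp [szw]
  | bl i d f =>
    simp only [szw, blk, List.length_map, List.length_append, List.length_replicate]
    omega

theorem EZ_nil_iff (T : ℕ) (v : ℕ → List Dir) (A : List Sz) (h : (EZ T v A).length = 0) :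
    A = [] := by
  cases A with
  | nil => rfl
  | cons s A =>
    exfalso
    have h1 : EZ T v (s :: A) = szw T v s ++ EZ T v A := by simp [EZ]
    rw [h1, List.length_append] at h
    have := szw_len T v s
    omega

/-- positions do not change under flips -/
theorem faZ_flip {T : ℕ} {v : ℕ → List Dir} {r : ℕ} {A B : List Sz} {a b : Dir} {y : Z3}
    (hf : faZ T v r (A ++ .lt a :: .lt b :: B) y) :
    faZ T v r (A ++ .lt b :: .lt a :: B) y := by
  intro A1 B1 i d f he
  rcases split A _ A1 B1 _ he with ⟨M, h1, h2⟩ | ⟨M, h1, h2⟩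
  · have h3 := hf A1 (M ++ .lt a :: .lt b :: B) i d f (by rw [h1]; simp)
    have h4 : pos (EZ T v B1) = pos (EZ T v (M ++ .lt a :: .lt b :: B)) := by
      rw [h2, EZ_append, EZ_append, EZ_lt, EZ_lt, EZ_lt, EZ_lt, pos_append, pos_append]
      simp only [pos]
      abel
    rw [h4]
    exact h3
  · cases M with
    | nil => simp at h2
    | cons s M =>
      simp only [List.cons_append, List.cons.injEq] at h2
      obtain ⟨rfl, h2⟩ := h2
      cases M with
      | nil => simp at h2
      | cons s M =>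
        simp only [List.cons_append, List.cons.injEq] at h2
        obtain ⟨rfl, h2⟩ := h2
        exact hf (A ++ .lt a :: .lt b :: M) B1 i d f (by rw [h2]; simp)

/-- two consecutive letters -/
theorem two {T : ℕ} {v : ℕ → List Dir} {A B M B' : List Sz} {a b : Dir} {l : List Dir}
    (h : A ++ .lt b :: B = M ++ .lt a :: B') (hB : EZ T v B = l) (hB' : EZ T v B' = b :: l) :
    B' = .lt b :: B := by
  rw [List.append_eq_append_iff] at h
  rcases h with ⟨c, h1, h2⟩ | ⟨c, h1, h2⟩
  · exfalso
    have h3 := congrArg (fun X => (EZ T v X).length) h2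
    simp only [EZ_append, EZ_lt, List.length_cons, List.length_append, hB, hB'] at h3
    omega
  · cases c with
    | nil =>
      exfalso
      have h3 := congrArg (fun X => (EZ T v X).length) h2
      simp only [List.nil_append, EZ_lt, List.length_cons, hB, hB'] at h3
      omega
    | cons s c =>
      simp only [List.cons_append, List.cons.injEq] at h2
      obtain ⟨-, h2⟩ := h2
      have h3 := congrArg (fun X => (EZ T v X).length) h2
      simp only [EZ_append, EZ_lt, List.length_cons, List.length_append, hB, hB'] at h3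
      have h4 := EZ_nil_iff T v c (by omega)
      rw [h2, h4]
      rfl

end K3YCON

open K3YCON in
theorem Y_con_proof (hstep : T_step) (hbas : Y_bas) (hrot : Y_rot 𝒬) (hlook : Y_look)
    (hflip : Y_flip 𝒬) (hins : Y_ins 𝒬) (hrtc : T_rtc) : Y_con 𝒬 := by
  intro T L Bd R v hv hLL W hW x N hC hx hfar i
  obtain ⟨d, f, l1, l2, ⟨hp, hsp, -, halt⟩, hn⟩ := hstep T L R hLL _ hW.ext x N hC hx
  have hperp : ∀ A B i d' f', W = A ++ .bl i d' f' :: B → perp d' f' := fun A B i d' f' h =>
    (hW.room A B i d' f' h).1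
  have hW1 := hrot T L Bd v hv W hW d f hp
  have hEX := ((hbas T L Bd v hv W).2.2.2.2 d f hp hperp).1
  have hperp1 : ∀ A B i d' f', W.map (rZ d f) = A ++ .bl i d' f' :: B → perp d' f' :=
    fun A B i d' f' h => (hW1.room A B i d' f' h).1
  -- distances to the blocks
  have hfar1 : faZ T v (raZ T L Bd - 6) (W.map (rZ d f)) (pos l2) := by
    intro A B i d' f' he hne
    obtain ⟨A0, B0', hA0, hA, hB⟩ := List.map_eq_append_iff.1 he
    obtain ⟨s, B0, rfl, hs, hB0⟩ := List.map_eq_cons_iff.1 hB
    cases s with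
    | lt e => simp [rZ] at hs
    | bl i0 d0 f0 =>
      have h1 := hfar A0 B0 i0 d0 f0 hA0
      have h2 : pos (EZ T v B) = Rp d f (pos (EZ T v B0)) := by
        rw [← hB0, ← ((hbas T L Bd v hv B0).2.2.2.2 d f hp (fun A B i d' f' h => hperp
          (A0 ++ .bl i0 d0 f0 :: A) B i d' f' (by rw [hA0, h]; simp))).1]
        exact ((hrtc d f hp).2.2.1 _).1
      rw [h2] at hne
      apply h1
      rw [← near_iff hp]
      have h3 := near_tri (near_symm hn) hne
      have h4 : 6 + (raZ T L Bd - 6) = raZ T L Bd := by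
        unfold raZ
        omega
      rwa [h4] at h3
  have hrad : raZ T L Bd = 4 * (Bd + 3 * T + L + 10) := rfl
  rw [hEX] at halt
  rcases halt with h1 | ⟨m, rfl, h1, h2⟩ | ⟨m, rfl, h1, h2⟩
  · -- alternative 1
    obtain ⟨A, B, hAB, hA, hB⟩ := hlook T L Bd v hv _ l1 l2 .zp h1
      (faZ_mono (by omega) hfar1) hperp1
    refine ⟨d, f, A, B, hp, ?_, ?_, ?_⟩
    · rw [hAB] at hW1 hfar1
      apply hins T L Bd v hv A B i hW1
      · rw [hA, hB]; exact hsp
      · rw [hB]; exact faZ_mono (by omega) hfar1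
    · rw [hB]; exact hn
    · left; exact hAB
  · -- alternative 2
    obtain ⟨A', B, hAB, hA', hB⟩ := hlook T L Bd v hv _ (m ++ [.zp]) l2 .xm (by rw [h1]; simp)
      (faZ_mono (by omega) hfar1) hperp1
    have hfar2 : faZ T v (raZ T L Bd - 7) (W.map (rZ d f)) (pos (Dir.xm :: l2)) := by
      have h3 : faZ T v (raZ T L Bd - 7 + 1) (W.map (rZ d f)) (pos l2) :=
        faZ_mono (by omega) hfar1
      exact faZ_near h3 (near_symm (near_vec _ _))
    obtain ⟨M, B', hMB, hM, hB'⟩ := hlook T L Bd v hv _ m (.xm :: l2) .zp h1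
      (faZ_mono (by omega) hfar2) hperp1
    have h3 := two (hAB.symm.trans hMB) hB hB'
    subst h3
    rw [hMB] at hW1 h2 hfar1
    have hW2 := hflip T L Bd v hv M B .zp .xm hW1 (by decide) (by rw [hB]; exact h2)
      (by rw [hB]; exact faZ_mono (by omega) hfar1)
    have e1 : M ++ Sz.lt .xm :: Sz.lt .zp :: B = (M ++ [Sz.lt .xm]) ++ Sz.lt .zp :: B := by simp
    have hfar3 := faZ_flip hfar1
    rw [e1] at hW2 hfar3
    refine ⟨d, f, M ++ [.lt .xm], B, hp, ?_, ?_, ?_⟩
    · apply hins T L Bd v hv _ B i hW2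
      · rw [EZ_append, hM, hB]
        exact hsp
      · rw [hB]; exact faZ_mono (by omega) hfar3
    · rw [hB]; exact hn
    · right; left; exact ⟨M, rfl, hMB⟩
  · -- alternative 3
    have hposm : near 1 (pos (Dir.xp :: m)) (pos m) := near_vec _ _
    have hfar2 : faZ T v (raZ T L Bd - 7) (W.map (rZ d f)) (pos m) := by
      have h3 : faZ T v (raZ T L Bd - 7 + 1) (W.map (rZ d f)) (pos (Dir.xp :: m)) :=
        faZ_mono (by omega) hfar1
      exact faZ_near h3 hposm
    have hfar2' : faZ T v (raZ T L Bd - 7) (W.map (rZ d f)) (pos (Dir.zp :: m)) := by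
      have h3 : faZ T v (raZ T L Bd - 7 + 1) (W.map (rZ d f)) (pos (Dir.xp :: m)) :=
        faZ_mono (by omega) hfar1
      exact faZ_near h3 (near_symm (near_vv _))
    obtain ⟨A, B1, hAB, hA, hB1⟩ := hlook T L Bd v hv _ l1 (.zp :: m) .xp h1
      (faZ_mono (by omega) hfar2') hperp1
    obtain ⟨A2, M, hMB, hA2, hM⟩ := hlook T L Bd v hv _ (l1 ++ [.xp]) m .zp (by rw [h1]; simp)
      (faZ_mono (by omega) hfar2) hperp1
    have h3 := two (hMB.symm.trans hAB) hM hB1
    subst h3
    rw [hAB] at hW1 h2 hfar1 hfar2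
    have hW2 := hflip T L Bd v hv A M .xp .zp hW1 (by decide) (by rw [hM]; exact h2)
      (by rw [hM]; exact faZ_mono (by omega) hfar2)
    have hfar3 := faZ_flip hfar1
    refine ⟨d, f, A, .lt .xp :: M, hp, ?_, ?_, ?_⟩
    · apply hins T L Bd v hv A _ i hW2
      · rw [EZ_lt, hA, hM]
        exact hsp
      · rw [EZ_lt, hM]; exact faZ_mono (by omega) hfar3
    · rw [EZ_lt, hM]; exact hn
    · right; right; exact ⟨M, rfl, hAB⟩

end KN.KQ
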