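import Pool.Agent.TH945.KQ.YOVR
import Pool.Agent.H246K3.YMUL

/-!
# Bounded multiplicity over a class of bounded divisibility
-/

set_option autoImplicit false

namespace KN.KQ

open Finset Filter Topology
open scoped Classical

variable {𝒬 : List V → Prop}

open KN.K3YMUL in
/-- Y11 -/
theorem Y_mul_proof (hmem : Y_mem 𝒬) (hty : Y_type OV.TT0) (hbas : Y_bas) (hrep : T_Wrep)
    (hrtc : T_rtc) : Y_mul 𝒬 := by
  intro ks N M hno T L B v hv hs
  set D := B + 2 * T with hD
  have hD1 : 1 ≤ D := (blk_pos T (v 0)).trans (blk_le hv T 0)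
  set Q := (Finset.range N ×ˢ (univ : Finset (Dir × Dir))).card with hQ
  refine ⟨2 ^ ((N + M) * (2 * D) * Q) + (SyZ N).card ^ (M * D + 3), ?_⟩
  intro n w
  set F := (VZ 𝒬 T L v N n).filter (fun W => EZ T v W = w) with hF
  rcases Nat.lt_or_ge n (M * D + 3) with hn | hn
  · have h1 : F.card ≤ (WZ N n).card := by
      refine Finset.card_le_card fun W hW => ?_
      rw [hF, Finset.mem_filter, VZ, Finset.mem_filter] at hW
      exact hW.1.1
    have h2 := WZ_card N n
    have h3 : (SyZ N).card ^ n ≤ (SyZ N).card ^ (M * D + 3) :=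
      Nat.pow_le_pow_right (SyZ_card N) hn.le
    exact (h1.trans (h2.trans h3)).trans (Nat.le_add_left _ _)
  refine le_trans ?_ (Nat.le_add_right _ _)
  rcases F.eq_empty_or_nonempty with he | ⟨W0, hW0⟩
  · rw [he]; simp
  rw [hF, Finset.mem_filter, hmem] at hW0
  obtain ⟨⟨hl0, hn0, hV0⟩, hw0⟩ := hW0
  have hl1 : M * (B + 2 * T) + 3 ≤ W0.length := by rw [hl0]; exact hn
  -- the far positions
  set P0 : Finset ℕ := (Sp T v 0 W0).image Prod.fst with hP0
  set S : Finset ℕ := (Finset.range (w.length + 1)).filter (fun m =>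
    (∀ p ∈ P0, m + D ≤ p ∨ p + D ≤ m) ∧ ∃ W ∈ F, ∃ (i : ℕ) (d f : Dir),
      (m, i, d, f) ∈ Sp T v 0 W) with hS
  set sep : Finset ℕ → Prop := fun P => ∀ p ∈ P, ∀ q ∈ P, p ≠ q → p + D ≤ q ∨ q + D ≤ p
    with hsep
  obtain ⟨P, hP, hmax⟩ := Finset.exists_max_image (S.powerset.filter sep) Finset.card
    ⟨∅, by rw [Finset.mem_filter]; exact ⟨Finset.empty_mem_powerset _, by simp [hsep]⟩⟩
  rw [Finset.mem_filter, Finset.mem_powerset] at hP
  obtain ⟨hPS, hPsep⟩ := hP
  have hPM : P.card < M := by
    by_contra hcon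
    rw [not_lt] at hcon
    obtain ⟨P', hP'sub, hP'card⟩ := Finset.exists_subset_card_eq hcon
    set g : ℕ → ℕ := fun j => if h : j < M then (P'.orderEmbOfFin hP'card ⟨j, h⟩) else 0 with hg
    have hgm : ∀ j < M, g j ∈ P' := by
      intro j hj
      simp only [hg, dif_pos hj]
      exact Finset.orderEmbOfFin_mem P' hP'card _
    have hgi : ∀ j < M, ∀ k < M, j ≠ k → g j ≠ g k := by
      intro j hj k hk hjk he
      simp only [hg, dif_pos hj, dif_pos hk] at he
      have := (P'.orderEmbOfFin hP'card).injective he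
      rw [Fin.mk.injEq] at this
      exact hjk this
    have hch : ∀ j, ∃ (i : ℕ) (d f : Dir) (l1 l2 : List Dir), j < M →
        i < N ∧ OV.VB T L v w i d f l1 l2 ∧ l1.length = g j := by
      intro j
      by_cases hj : j < M
      · have h1 := hPS (hP'sub (hgm j hj))
        rw [hS, Finset.mem_filter] at h1
        obtain ⟨-, -, W, hW, i, d, f, hm⟩ := h1
        rw [hF, Finset.mem_filter, hmem] at hW
        obtain ⟨⟨_, hlab, hV⟩, hw⟩ := hW
        obtain ⟨A, B', h2, h3⟩ := Sp_mem T v W 0 (g j) i d f hm
        refine ⟨i, d, f, EZ T v A, EZ T v B', fun _ => ⟨?_, ?_, by omega⟩⟩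
        · have h7 := lab_mem h2
          rw [hlab.mem_iff, List.mem_range] at h7
          exact h7
        · rw [← hw]
          exact OV.vb_of hV h2
      · exact ⟨0, .xp, .xp, [], [], fun h => absurd h hj⟩
    choose σ d f l1 l2 h using hch
    refine OV.ovr hty hbas hrep hrtc hno hv hs hV0 hl1 σ (fun j hj => (h j hj).1) d f l1 l2
      (fun j hj => by rw [hw0]; exact (h j hj).2.1) ?_ ?_
    · intro j hj A B' i' d' f' h2
      have h1 := hPS (hP'sub (hgm j hj))
      rw [hS, Finset.mem_filter] at h1
      have h3 : (EZ T v A).length ∈ P0 := by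
        rw [hP0, Finset.mem_image]
        refine ⟨(0 + (EZ T v A).length, i', d', f'), ?_, by simp⟩
        rw [h2]; exact mem_Sp T v A B' 0 i' d' f'
      rw [(h j hj).2.2]
      exact h1.2.1 _ h3
    · intro j hj k hk hjk
      rw [(h j hj).2.2, (h k hk).2.2]
      exact hPsep _ (hP'sub (hgm j hj)) _ (hP'sub (hgm k hk)) (hgi j hj k hk hjk)
  set J : Finset (ℕ × ℕ × Dir × Dir) :=
    ((P0 ∪ P).biUnion (fun q => Finset.Ico (q + 1 - D) (q + D))) ×ˢ
      (Finset.range N ×ˢ (univ : Finset (Dir × Dir))) with hJ
  have hPc : (P0 ∪ P).card ≤ N + M := by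
    refine (Finset.card_union_le _ _).trans (Nat.add_le_add ?_ hPM.le)
    refine Finset.card_image_le.trans ((Sp_card T v W0 0).trans ?_)
    rw [hn0.length_eq, List.length_range]
  have hJc : J.card ≤ (N + M) * (2 * D) * Q := by
    rw [hJ, Finset.card_product]
    refine Nat.mul_le_mul_right _ ?_
    refine Finset.card_biUnion_le.trans ?_
    calc ∑ q ∈ P0 ∪ P, (Finset.Ico (q + 1 - D) (q + D)).card
        ≤ ∑ _q ∈ P0 ∪ P, 2 * D := by
          refine Finset.sum_le_sum fun q _ => ?_
          rw [Nat.card_Ico]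
          omega
      _ = (P0 ∪ P).card * (2 * D) := by rw [Finset.sum_const, smul_eq_mul]
      _ ≤ (N + M) * (2 * D) := Nat.mul_le_mul_right _ hPc
  have hle : F.card ≤ J.powerset.card := by
    refine Finset.card_le_card_of_injOn (fun W => Sp T v 0 W) ?_ ?_
    · intro W hW
      have hWF : W ∈ F := hW
      rw [Finset.mem_coe, hF, Finset.mem_filter, hmem] at hW
      obtain ⟨⟨_, hlab, hV⟩, hw⟩ := hW
      rw [Finset.mem_coe, Finset.mem_powerset]
      rintro ⟨m, i, d, f⟩ hm
      obtain ⟨A, B', h1, h2⟩ := Sp_mem T v W 0 m i d f hm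
      have h6 : i ∈ Finset.range N := by
        have h7 := lab_mem h1
        rw [hlab.mem_iff, List.mem_range] at h7
        exact Finset.mem_range.2 h7
      rw [hJ, Finset.mem_product]
      refine ⟨?_, Finset.mem_product.2 ⟨h6, Finset.mem_univ _⟩⟩
      rw [Finset.mem_biUnion]
      by_cases hnear : ∀ p ∈ P0, m + D ≤ p ∨ p + D ≤ m
      · have hmS : m ∈ S := by
          rw [hS, Finset.mem_filter, Finset.mem_range]
          refine ⟨?_, hnear, W, hWF, i, d, f, hm⟩
          have h8 := congrArg List.length hw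
          rw [h1, EZ_append, List.length_append] at h8
          omega
        by_cases hmP : m ∈ P
        · refine ⟨m, Finset.mem_union_right _ hmP, ?_⟩
          simp only [Finset.mem_Ico]
          omega
        · by_contra hcon
          have hins : insert m P ∈ S.powerset.filter sep := by
            rw [Finset.mem_filter, Finset.mem_powerset]
            refine ⟨Finset.insert_subset hmS hPS, ?_⟩
            have hmp : ∀ p ∈ P, m + D ≤ p ∨ p + D ≤ m := by
              intro p hp
              by_contra hc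
              apply hcon
              refine ⟨p, Finset.mem_union_right _ hp, ?_⟩
              simp only [Finset.mem_Ico]
              omega
            intro p hp q hq hpq
            rw [Finset.mem_insert] at hp hq
            rcases hp with rfl | hp <;> rcases hq with rfl | hq
            · exact absurd rfl hpq
            · exact hmp q hq
            · exact (hmp p hp).symm
            · exact hPsep p hp q hq hpq
          have h9 := hmax _ hins
          rw [Finset.card_insert_of_notMem hmP] at h9
          omega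
      · push Not at hnear
        obtain ⟨p, hp, h3, h4⟩ := hnear
        refine ⟨p, Finset.mem_union_left _ hp, ?_⟩
        simp only [Finset.mem_Ico]
        omega
    · intro W hW W' hW' he
      rw [Finset.mem_coe, hF, Finset.mem_filter] at hW hW'
      exact inj T v W W' 0 (by rw [hW.2, hW'.2]) he
  refine hle.trans ?_
  rw [Finset.card_powerset]
  exact Nat.pow_le_pow_right (by norm_num) hJc

end KN.KQ
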