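import Pool.Agent.TH945.KQ.Defs
import Pool.Agent.H246KN.All

/-!
# Task YTYPE: the knot type of a word with blocks of different types
-/

set_option autoImplicit false

namespace KN.KQ

variable {𝒬 : List V → Prop}

open Finset Filter Topology
open scoped Classical

namespace K3YTYPE

theorem sums_same (hQ : TC 𝒬) {ks : ℕ → List V} {N : ℕ} {l l' : List V} (h : SumsC 𝒬 ks N l)
    (hs : Same l l') : SumsC 𝒬 ks N l' := by
  cases N with
  | zero => exact hQ _ _ hs h
  | succ N =>
    obtain ⟨l1, v, l2, hF, ht, hk, hl⟩ := h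
    exact ⟨l1, v, l2, hF, ht, hk, hs.symm.trans hl⟩

/-- a representative with an edge `zp` in the plane of maximal first coordinate -/
theorem rep_R {w : List Dir} (hw : SAP w) : ∃ l1 l2 : List Dir, SAP (l1 ++ .zp :: l2) ∧
    (∀ p ∈ path (l1 ++ .zp :: l2), p.1 ≤ (pos l2).1) ∧ Same (vl (l1 ++ .zp :: l2)) (vl w) := by
  have hW : S_words := S_words_proof S_simple_proof S_motion_proof S_rot_proof
  have h1 : ∀ u, SAP u → (Same (vl u) (vl w) ↔ Same (vl (u.map rx)) (vl w)) := fun u hu =>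
    ⟨fun h => ((hW u hu).1.2.symm).trans h, fun h => ((hW u hu).1.2).trans h⟩
  have h3 := S_quartR_proof (fun u => Same (vl u) (vl w)) h1 w.length
  have h4 : 0 < a (fun u => Same (vl u) (vl w)) w.length := by
    unfold a
    rw [Finset.card_pos]
    exact ⟨w, mem_K.2 ⟨rfl, hw, Same.refl _⟩⟩
  have h5 : 0 < ((K (fun u => Same (vl u) (vl w)) w.length).filter (fun w => ∃ l1 l2 : List Dir,
      w = l1 ++ .zp :: l2 ∧ ∀ p ∈ path w, p.1 ≤ (pos l2).1)).card := by
    rcases Nat.eq_zero_or_pos ((K (fun u => Same (vl u) (vl w)) w.length).filter (fun w =>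
      ∃ l1 l2 : List Dir, w = l1 ++ .zp :: l2 ∧ ∀ p ∈ path w, p.1 ≤ (pos l2).1)).card with h | h
    · rw [h] at h3
      omega
    · exact h
  obtain ⟨u, hu⟩ := Finset.card_pos.1 h5
  rw [Finset.mem_filter, mem_K] at hu
  obtain ⟨⟨_, hu1, hu2⟩, l1, l2, rfl, hv⟩ := hu
  exact ⟨l1, l2, hu1, hv, hu2⟩

theorem bgL (L : ℕ) {l1 l2 : List Dir} (h : SAP (l1 ++ .zp :: l2))
    (hx : ∀ p ∈ path (l1 ++ .zp :: l2), p.1 ≤ (pos l2).1) : BgL L l1 l2 := by
  refine ⟨h, fun p hp hc => ?_⟩
  have h1 := hx p hp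
  have h2 := hc.1
  omega

theorem EZ_append (T : ℕ) (v : ℕ → List Dir) (A B : List Sz) :
    EZ T v (A ++ B) = EZ T v A ++ EZ T v B := by
  unfold EZ
  rw [List.flatMap_append]

theorem EZ_cons (T : ℕ) (v : ℕ → List Dir) (s : Sz) (B : List Sz) :
    EZ T v (s :: B) = szw T v s ++ EZ T v B := by
  unfold EZ
  rw [List.flatMap_cons]

theorem EZ_lt (T : ℕ) (v : ℕ → List Dir) (A B : List Sz) (f : Dir) :
    EZ T v (A ++ .lt f :: B) = EZ T v A ++ f :: EZ T v B := by
  rw [EZ_append, EZ_cons]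
  rfl

theorem rt_id (e : Dir) : rt .xp .zp e = e := by cases e <;> rfl

theorem EZ_bl (T : ℕ) (v : ℕ → List Dir) (A B : List Sz) (i : ℕ) :
    EZ T v (A ++ .bl i .xp .zp :: B) = EZ T v A ++ blk T (v i) ++ EZ T v B := by
  rw [EZ_append, EZ_cons]
  have : szw T v (.bl i .xp .zp) = blk T (v i) := by
    change (blk T (v i)).map (rt .xp .zp) = blk T (v i)
    have h : rt .xp .zp = id := funext rt_id
    rw [h, List.map_id]
  rw [this, List.append_assoc]

theorem Rp_id (p : Z3) : Rp .xp .zp p = p := by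
  obtain ⟨a, b, c⟩ := p
  have h : cr .zp .xp = .yp := rfl
  unfold Rp
  rw [h]
  ext <;> simp [vec]

theorem pos_rep (d : Dir) : ∀ n : ℕ, pos (List.replicate n d) = (n : ℤ) • vec d
  | 0 => by simp [pos]
  | n + 1 => by
    rw [List.replicate_succ, pos, pos_rep d n]
    push_cast
    rw [add_smul, one_smul]

theorem pos_blk (T : ℕ) {v : List Dir} (hv : SAP (.zm :: v)) : pos (blk T v) = vec .zp := by
  unfold blk
  rw [pos_append, pos_append, pos_rep, pos_rep, GL1.pos_v hv]
  ext <;> simp [vec]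

theorem blk_ne (T : ℕ) (v : List Dir) : blk T v ≠ [] := by
  unfold blk
  rw [List.replicate_succ]
  simp

theorem lab_append (A B : List Sz) : lab (A ++ B) = lab A ++ lab B := by
  unfold lab
  rw [List.filterMap_append]

theorem lab_lt (f : Dir) (B : List Sz) : lab (.lt f :: B) = lab B := by
  unfold lab
  rw [List.filterMap_cons_none rfl]

theorem lab_bl (i : ℕ) (d f : Dir) (B : List Sz) : lab (.bl i d f :: B) = i :: lab B := by
  unfold lab
  rw [List.filterMap_cons]

theorem EZ_nil {T : ℕ} {v : ℕ → List Dir} : ∀ W : List Sz, lab W = [] → EZ T v W = BZ W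
  | [], _ => rfl
  | .lt f :: W, h => by
    rw [lab_lt] at h
    rw [EZ_cons, EZ_nil W h]
    rfl
  | .bl i d f :: W, h => by
    rw [lab_bl] at h
    exact absurd h (List.cons_ne_nil _ _)

theorem mem_lab {N : ℕ} : ∀ W : List Sz, N ∈ lab W → ∃ (A B : List Sz) (d f : Dir),
    W = A ++ .bl N d f :: B
  | [], h => by
    unfold lab at h
    simp at h
  | .lt f :: W, h => by
    rw [lab_lt] at h
    obtain ⟨A, B, d, f', rfl⟩ := mem_lab W h
    exact ⟨.lt f :: A, B, d, f', rfl⟩
  | .bl i d f :: W, h => by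
    rw [lab_bl, List.mem_cons] at h
    rcases h with rfl | h
    · exact ⟨[], W, d, f, rfl⟩
    · obtain ⟨A, B, d', f', rfl⟩ := mem_lab W h
      exact ⟨.bl i d f :: A, B, d', f', rfl⟩

theorem RmD_mono {T L : ℕ} {d f : Dir} {w w' : List Dir} {y : Z3} (h : RmD T L d f w y)
    (hs : ∀ p ∈ path w', p ∈ path w) : RmD T L d f w' y := by
  refine ⟨fun j h1 h2 => ?_, fun x h1 h2 h3 h4 h5 hm => ?_⟩
  · exact ⟨fun hm => (h.1 j h1 h2).1 (hs _ hm), fun hm => (h.1 j h1 h2).2 (hs _ hm)⟩
  · exact h.2 x h1 h2 h3 h4 h5 (hs _ hm)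

/-- a block can be replaced by its letter -/
theorem val_drop (hWbas : Y_bas) (hWrep : T_Wrep) {T L Bd : ℕ} {v : ℕ → List Dir}
    (hv : SmB L Bd v) {A B : List Sz} {i : ℕ} (h : VaZ 𝒬 T L v (A ++ .bl i .xp .zp :: B)) :
    VaZ 𝒬 T L v (A ++ .lt .zp :: B) := by
  have hI := pos_blk T (hv i).1.1
  have hBZ : BZ (A ++ .lt .zp :: B) = BZ (A ++ .bl i .xp .zp :: B) := by
    unfold BZ
    rw [List.map_append, List.map_append]
    rfl
  refine ⟨?_, ?_, ?_, ?_⟩
  · rw [hBZ]; exact h.u
  · rw [hBZ]; exact h.base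
  · have h1 := (hWrep (EZ T v A) (EZ T v B) (blk T (v i)) .zp hI (blk_ne T (v i))).2
    rw [EZ_lt]
    refine h1 ?_ ?_
    · rw [← EZ_bl]; exact h.ext
    · have h2 := (hWbas T L Bd v hv (A ++ .lt .zp :: B)).2.2.1
      rw [EZ_lt] at h2
      rw [h2]
      have h3 := h.base.1
      rw [← hBZ] at h3
      unfold BZ at h3
      rw [List.length_map] at h3
      omega
  · intro A' B' i' d' f' he
    rcases List.append_eq_append_iff.1 he with ⟨C, hC1, hC2⟩ | ⟨C, hC1, hC2⟩
    · -- `A' = A ++ C`, `lt zp :: B = C ++ bl :: B'`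
      cases C with
      | nil =>
        rw [List.nil_append, List.cons.injEq] at hC2
        exact absurd hC2.1 (by simp)
      | cons s C =>
        rw [List.cons_append, List.cons.injEq] at hC2
        obtain ⟨rfl, rfl⟩ := hC2
        subst hC1
        have h1 := h.room (A ++ .bl i .xp .zp :: C) B' i' d' f' (by simp)
        refine ⟨h1.1, RmD_mono h1.2 ?_⟩
        intro p hp
        rw [EZ_lt] at hp
        rw [EZ_bl]
        have h2 := (hWrep (EZ T v A) (EZ T v C ++ f' :: EZ T v B') (blk T (v i)) .zp hI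
          (blk_ne T (v i))).1 p
        simp only [List.append_assoc, List.cons_append] at hp h2 ⊢
        exact h2 hp
    · -- `A = A' ++ C`, `bl :: B' = C ++ lt zp :: B`
      cases C with
      | nil =>
        rw [List.nil_append, List.cons.injEq] at hC2
        exact absurd hC2.1 (by simp)
      | cons s C =>
        rw [List.cons_append, List.cons.injEq] at hC2
        obtain ⟨rfl, rfl⟩ := hC2
        subst hC1
        have h1 := h.room A' (C ++ .bl i .xp .zp :: B) i' d' f' (by simp)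
        have hp1 : pos (EZ T v (C ++ .bl i .xp .zp :: B)) = pos (EZ T v (C ++ .lt .zp :: B)) := by
          rw [EZ_bl, EZ_lt, pos_append, pos_append, pos_append, hI]
          change _ = pos (EZ T v C) + (pos (EZ T v B) + vec .zp)
          abel
        rw [hp1] at h1
        refine ⟨h1.1, RmD_mono h1.2 ?_⟩
        intro p hp
        rw [EZ_lt] at hp
        rw [EZ_bl]
        have h2 := (hWrep (EZ T v A' ++ f' :: EZ T v C) (EZ T v B) (blk T (v i)) .zp hI
          (blk_ne T (v i))).1 p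
        simp only [List.append_assoc, List.cons_append] at hp h2 ⊢
        exact h2 hp

theorem spot_of {T L : ℕ} {v : ℕ → List Dir} {A B : List Sz} {i : ℕ}
    (h : VaZ 𝒬 T L v (A ++ .bl i .xp .zp :: B)) (h' : VaZ 𝒬 T L v (A ++ .lt .zp :: B)) :
    Spot T L (EZ T v A) (EZ T v B) := by
  have h1 := (h.room A B i .xp .zp rfl).2
  have h2 := h'.ext
  rw [EZ_lt] at h2
  refine ⟨h2, fun j g1 g2 => ?_, fun x g1 g2 g3 g4 g5 => ?_⟩
  · have := h1.1 j g1 g2
    rwa [Rp_id, Rp_id] at this
  · have := h1.2 x g1 g2 g3 g4 g5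
    rwa [Rp_id] at this

end K3YTYPE

open K3YTYPE in
theorem Y_type_proof (hQ : TC 𝒬) (hmaster : T_master) (hYbas : Y_bas) (hWrep : T_Wrep) (hYrot : Y_rot 𝒬)
    (hrt : T_rt) (hrtc : T_rtc) : Y_type 𝒬 := by
  intro ks T L Bd v hv N
  induction N with
  | zero =>
    intro _ W hW hval
    change 𝒬 (vl (EZ T v W))
    rw [EZ_nil W (List.perm_nil.1 hW)]
    exact hval.u
  | succ N ih =>
    intro hk W hW hval
    have hmem : N ∈ lab W := hW.mem_iff.2 (List.mem_range.2 (Nat.lt_succ_self N))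
    obtain ⟨A, B, d, f, rfl⟩ := mem_lab W hmem
    have hperp : ∀ A' B' i' d' f', A ++ .bl N d f :: B = A' ++ .bl i' d' f' :: B' → perp d' f' :=
      fun A' B' i' d' f' he => (hval.room A' B' i' d' f' he).1
    have hdf : perp d f := hperp A B N d f rfl
    obtain ⟨⟨d', f', hp', hd', hf', -, -, -, -⟩, -, -, -⟩ := hrtc d f hdf
    have hb := (hYbas T L Bd v hv (A ++ .bl N d f :: B)).2.2.2.2 d' f' hp' hperp
    have hval' := hYrot T L Bd v hv _ hval d' f' hp'
    have hsame := (hrt d' f' hp' _ hval.ext).2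
    rw [hb.1] at hsame
    refine sums_same hQ ?_ hsame.symm
    have hmap : (A ++ .bl N d f :: B).map (rZ d' f') =
        A.map (rZ d' f') ++ .bl N .xp .zp :: B.map (rZ d' f') := by
      rw [List.map_append, List.map_cons]
      change _ ++ Sz.bl N (rt d' f' d) (rt d' f' f) :: _ = _
      rw [hd', hf']
    have hn : (lab ((A ++ .bl N d f :: B).map (rZ d' f'))).Perm (List.range (N + 1)) := by
      rw [hb.2.2]
      exact hW
    rw [hmap] at hval' hn ⊢
    set A1 := A.map (rZ d' f')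
    set B1 := B.map (rZ d' f')
    have hval1 := val_drop hYbas hWrep hv hval'
    have hn1 : (lab (A1 ++ .lt .zp :: B1)).Perm (List.range N) := by
      rw [lab_append, lab_lt]
      rw [lab_append, lab_bl, List.range_succ] at hn
      have h1 : (N :: (lab A1 ++ lab B1)).Perm (N :: List.range N) :=
        (List.perm_middle.symm.trans hn).trans (List.perm_append_singleton N (List.range N))
      exact h1.cons_inv
    have hT := ih (fun i hi => hk i (Nat.lt_succ_of_lt hi)) _ hn1 hval1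
    obtain ⟨m1, m2, hm, hmx, hms⟩ := rep_R hval1.ext
    have hspot := spot_of hval' hval1
    have hms' : Same (vl (EZ T v A1 ++ .zp :: EZ T v B1)) (vl (m1 ++ .zp :: m2)) := by
      rw [← EZ_lt]
      exact hms.symm
    have hM := (hmaster T L (EZ T v A1) (EZ T v B1) m1 m2 (v N) hspot (hv N).1 (bgL L hm hmx)
      hms').2
    rw [← EZ_bl] at hM
    exact ⟨m1, v N, m2, ⟨hm, hmx, (hv N).1.1, fun p hp => ((hv N).1.2 p hp).1⟩,
      sums_same hQ hT hms.symm, hk N (Nat.lt_succ_self N), hM⟩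

end KN.KQ
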