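import Pool.Agent.TH945.KQ.Defs

/-! Task YZERO. -/

namespace KN.KQ

variable {𝒬 : List V → Prop}

open Finset
open scoped Classical

namespace K3YZERO

theorem BZ_map (w : List Dir) : BZ (w.map Sz.lt) = w := by
  unfold BZ
  rw [List.map_map]
  exact List.map_id'' (fun _ => rfl) w

theorem EZ_map (T : ℕ) (v : ℕ → List Dir) (w : List Dir) : EZ T v (w.map Sz.lt) = w := by
  unfold EZ
  induction w with
  | nil => rfl
  | cons f w ih =>
    rw [List.map_cons, List.flatMap_cons, ih]
    rfl

theorem lab_map (w : List Dir) : lab (w.map Sz.lt) = [] := by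
  unfold lab
  rw [List.filterMap_eq_nil_iff]
  intro x hx
  obtain ⟨f, -, rfl⟩ := List.mem_map.1 hx
  rfl

theorem map_BZ (W : List Sz) (h : lab W = []) : (BZ W).map Sz.lt = W := by
  unfold lab at h
  rw [List.filterMap_eq_nil_iff] at h
  unfold BZ
  rw [List.map_map]
  conv_rhs => rw [← List.map_id W]
  apply List.map_congr_left
  intro x hx
  have := h x hx
  cases x with
  | lt f => rfl
  | bl i d f => simp at this

end K3YZERO

open K3YZERO in
theorem Y_zero_proof (hmem : Y_mem 𝒬) : Y_zero 𝒬 := by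
  intro T L v n
  unfold a
  symm
  refine Finset.card_bij (fun w _ => w.map Sz.lt) ?_ ?_ ?_
  · intro w hw
    obtain ⟨h1, h2, h3⟩ := mem_K.1 hw
    refine (hmem T L v 0 n _).2 ⟨by rw [List.length_map, h1], by rw [lab_map]; rfl, ?_⟩
    refine ⟨?_, ?_, ?_, ?_⟩
    · rw [BZ_map]; exact h3
    · rw [BZ_map]; exact h2
    · rw [EZ_map]; exact h2
    · intro A B i d f h
      exfalso
      have h4 : lab (w.map Sz.lt) = [] := lab_map w
      rw [h] at h4
      unfold lab at h4
      rw [List.filterMap_eq_nil_iff] at h4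
      have := h4 (.bl i d f) (by simp)
      simp at this
  · intro w1 _ w2 _ h
    have h1 := congrArg BZ h
    rwa [BZ_map, BZ_map] at h1
  · intro W hW
    obtain ⟨h1, h2, h3⟩ := (hmem T L v 0 n W).1 hW
    have h4 : lab W = [] := List.perm_nil.1 h2
    refine ⟨BZ W, mem_K.2 ⟨?_, h3.base, h3.u⟩, map_BZ W h4⟩
    unfold BZ
    rw [List.length_map]
    exact h1

end KN.KQ
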