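import Pool.Agent.H246K3.All3
import Pool.Agent.TH945.KQ.YROT
import Pool.Agent.TH945.KQ.YFLIP
import Pool.Agent.TH945.KQ.YINS
import Pool.Agent.TH945.KQ.YCON
import Pool.Agent.TH945.KQ.YCNT
import Pool.Agent.TH945.KQ.YZERO
import Pool.Agent.TH945.KQ.YMEM
import Pool.Agent.TH945.KQ.YTYPE
import Pool.Agent.TH945.KQ.YMUL

/-!
# Connected sums over a class of knots: the counting theorem
-/

set_option autoImplicit false

namespace KN.KQ

open Finset Filter Topology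
open scoped Classical

variable {𝒬 : List V → Prop}

theorem q_mem : Y_mem 𝒬 := Y_mem_proof
theorem q_rot (hQ : TC 𝒬) : Y_rot 𝒬 := Y_rot_proof hQ e_bas T_rt_proof T_rtc_proof
theorem q_flip (hQ : TC 𝒬) : Y_flip 𝒬 := Y_flip_proof hQ e_bas T_Wrep_proof T_flip_proof
theorem q_ins : Y_ins 𝒬 := Y_ins_proof e_bas d_ssap
theorem q_con (hQ : TC 𝒬) : Y_con 𝒬 :=
  Y_con_proof d_step e_bas (q_rot hQ) Y_look_proof (q_flip hQ) q_ins T_rtc_proof
theorem q_cnt (hQ : TC 𝒬) : Y_cnt 𝒬 := Y_cnt_proof (q_con hQ) e_bas q_mem d_many T_rtc_proof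
theorem q_zero : Y_zero 𝒬 := Y_zero_proof q_mem
theorem q_type (hQ : TC 𝒬) : Y_type 𝒬 :=
  Y_type_proof hQ d_master e_bas T_Wrep_proof (q_rot hQ) T_rt_proof T_rtc_proof
theorem q_mul : Y_mul 𝒬 :=
  Y_mul_proof q_mem (q_type OV.TT0_TC) e_bas T_Wrep_proof T_rtc_proof

/-- connected sums only use the indices below `N` -/
theorem SumsC_congr {ks ks' : ℕ → List V} : ∀ {N : ℕ} {l : List V}, (∀ i < N, ks i = ks' i) →
    SumsC 𝒬 ks N l → SumsC 𝒬 ks' N l
  | 0, _, _, hl => hl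
  | N + 1, _, h, ⟨l1, v, l2, h1, h2, h3, h4⟩ =>
    ⟨l1, v, l2, h1, SumsC_congr (fun i hi => h i (by omega)) h2, h N (by omega) ▸ h3, h4⟩

/-- the number of words with `N` blocks -/
theorem step1 (hQ : TC 𝒬) {T L B R : ℕ} {v : ℕ → List Dir} (hv : SmB L B v)
    (hLL : LLat T L R) (hR : 1 ≤ R) (N : ℕ) : ∃ c : ℝ, 0 < c ∧ ∀ᶠ n : ℕ in atTop,
      c * (n : ℝ) ^ (2 * N / 3 : ℝ) * a (fun w => 𝒬 (vl w)) n ≤ (VZ 𝒬 T L v N n).card := by
  induction N with
  | zero =>
    refine ⟨1, one_pos, Eventually.of_forall fun n => ?_⟩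
    rw [q_zero T L v n]
    simp
  | succ N ih =>
    obtain ⟨c, hc, h1⟩ := ih
    obtain ⟨c', hc', h2⟩ := q_cnt hQ T L B R v hv hLL hR N
    refine ⟨c' * c, by positivity, ?_⟩
    filter_upwards [h1, h2, eventually_gt_atTop 0] with n h1 h2 hn
    have hn' : (0 : ℝ) < n := by exact_mod_cast hn
    have e : (n : ℝ) ^ (2 * ((N + 1 : ℕ) : ℝ) / 3 : ℝ) =
        (n : ℝ) ^ (2 / 3 : ℝ) * (n : ℝ) ^ (2 * (N : ℝ) / 3 : ℝ) := by
      rw [← Real.rpow_add hn']
      congr 1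
      push_cast
      ring
    rw [e]
    calc c' * c * ((n : ℝ) ^ (2 / 3 : ℝ) * (n : ℝ) ^ (2 * (N : ℝ) / 3 : ℝ)) *
          a (fun w => 𝒬 (vl w)) n
        = c' * (n : ℝ) ^ (2 / 3 : ℝ) * (c * (n : ℝ) ^ (2 * (N : ℝ) / 3 : ℝ) *
          a (fun w => 𝒬 (vl w)) n) := by ring
      _ ≤ c' * (n : ℝ) ^ (2 / 3 : ℝ) * (VZ 𝒬 T L v N n).card :=
          mul_le_mul_of_nonneg_left h1 (by positivity)
      _ ≤ _ := h2

/-- the case of an infinite family with bounded blocks -/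
theorem main (hQ : TC 𝒬) (ks : ℕ → List V) (N M : ℕ) (hno : NoM 𝒬 ks N M)
    (L B : ℕ) (v : ℕ → List Dir) (hv : SmB L B v) (hvk : ∀ i, Same (vl (.zm :: v i)) (ks i)) :
    ∃ (c : ℝ) (m : ℕ), 0 < c ∧ m % 2 = 0 ∧
      ∀ᶠ n : ℕ in atTop, c * (n : ℝ) ^ (2 * N / 3 : ℝ) * a (fun w => 𝒬 (vl w)) n ≤
        a (fun w => SumsC 𝒬 ks N (vl w)) (n + m) := by
  obtain ⟨R, hR, hLR⟩ := d_LL (2 * L + 4) L le_rfl
  obtain ⟨c, hc, h1⟩ := step1 hQ hv hLR hR N
  obtain ⟨C, hC⟩ := q_mul ks N M hno (2 * L + 4) L B v hv hvk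
  set T := 2 * L + 4 with hT
  set m : ℕ := ((List.range N).map (fun i => (blk T (v i)).length - 1)).sum with hm
  refine ⟨c / (C + 1), m, by positivity, ?_, ?_⟩
  · rw [hm]
    apply K3YALL.sum_even
    intro x hx
    obtain ⟨i, -, rfl⟩ := List.mem_map.1 hx
    have hlen : (blk T (v i)).length = 2 * (T + 1) + (v i).length := by
      unfold blk
      simp only [List.length_append, List.length_replicate]
      omega
    have hodd : ((v i).length + 1) % 2 = 0 := by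
      have h2 := even_of_closed ((hv i).1.1.2.1)
      simpa using h2
    omega
  · filter_upwards [h1] with n h1
    have h3 : (VZ 𝒬 T L v N n).card ≤ C * a (fun w => SumsC 𝒬 ks N (vl w)) (n + m) := by
      have h4 : (VZ 𝒬 T L v N n).card ≤ C * ((VZ 𝒬 T L v N n).image (EZ T v)).card := by
        apply Finset.card_le_mul_card_image
        intro w _
        exact hC n w
      refine h4.trans (Nat.mul_le_mul_left _ ?_)
      unfold a
      apply Finset.card_le_card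
      intro w hw
      obtain ⟨W, hW, rfl⟩ := Finset.mem_image.1 hw
      obtain ⟨hW1, hW2, hW3⟩ := (q_mem T L v N n W).1 hW
      rw [mem_K]
      refine ⟨?_, hW3.ext, ?_⟩
      · rw [(e_bas T L B v hv W).2.2.1, hW1, hm, (hW2.map _).sum_eq]
      · exact q_type hQ ks T L B v hv N (fun i _ => hvk i) W hW2 hW3
    have h5 : ((VZ 𝒬 T L v N n).card : ℝ) ≤
        (C + 1) * (a (fun w => SumsC 𝒬 ks N (vl w)) (n + m) : ℝ) := by
      have h6 : ((VZ 𝒬 T L v N n).card : ℝ) ≤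
          (C : ℝ) * (a (fun w => SumsC 𝒬 ks N (vl w)) (n + m) : ℝ) := by
        exact_mod_cast h3
      have h7 : (0 : ℝ) ≤ (a (fun w => SumsC 𝒬 ks N (vl w)) (n + m) : ℝ) := Nat.cast_nonneg _
      linarith
    have hC0 : (0 : ℝ) < (C : ℝ) + 1 := by positivity
    have h8 := h1.trans h5
    have h9 : c / (C + 1) * (n : ℝ) ^ (2 * (N : ℝ) / 3 : ℝ) *
        (a (fun w => 𝒬 (vl w)) n : ℝ) =
        (c * (n : ℝ) ^ (2 * (N : ℝ) / 3 : ℝ) * (a (fun w => 𝒬 (vl w)) n : ℝ)) / (C + 1) := by ring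
    rw [h9, div_le_iff₀ hC0]
    linarith

/-- **Connected sums with polygons of a class.** -/
theorem class_main (hQ : TC 𝒬) (ks : ℕ → List V) (N M : ℕ) (hno : NoM 𝒬 ks N M)
    (hex : ∀ i < N, ∃ w, SAP w ∧ Same (vl w) (ks i)) :
    ∃ (c : ℝ) (m : ℕ), 0 < c ∧ m % 2 = 0 ∧
      ∀ᶠ n : ℕ in atTop, c * (n : ℝ) ^ (2 * N / 3 : ℝ) * a (fun w => 𝒬 (vl w)) n ≤
        a (fun w => SumsC 𝒬 ks N (vl w)) (n + m) := by
  rcases Nat.eq_zero_or_pos N with rfl | hN
  · refine ⟨1, 0, one_pos, rfl, Eventually.of_forall fun n => ?_⟩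
    simp only [Nat.cast_zero, mul_zero, zero_div, Real.rpow_zero, mul_one, one_mul, add_zero]
    exact le_rfl
  · have hlt : ∀ i, min i (N - 1) < N := fun i => by omega
    have h1 : ∀ i, ∃ (L : ℕ) (v : List Dir), SmR L v ∧
        Same (vl (.zm :: v)) (ks (min i (N - 1))) := fun i => T_vex_proof _ (hex _ (hlt i))
    choose L v hv hvk using h1
    have hmin : ∀ i, min (min i (N - 1)) (N - 1) = min i (N - 1) := fun i => by omega
    have heq : ∀ i < N, ks (min i (N - 1)) = ks i := fun i hi => by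
      have : min i (N - 1) = i := by omega
      rw [this]
    obtain ⟨c, m, hc, hm, h⟩ := main hQ (fun i => ks (min i (N - 1))) N M
      (fun σ hσ l hl hS => hno σ hσ l hl (SumsC_congr (fun j hj => heq _ (hσ j hj)) hS))
      ((range N).sup L)
      ((range N).sup (fun i => (blk 0 (v i)).length)) (fun i => v (min i (N - 1))) (by
        intro i
        refine ⟨K3YALL.SmR_mono ?_ (hv _), ?_⟩
        · exact Finset.le_sup (f := L) (Finset.mem_range.2 (hlt i))
        · exact Finset.le_sup (f := fun i => (blk 0 (v i)).length)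
            (Finset.mem_range.2 (hlt i))) (by
        intro i
        have := hvk (min i (N - 1))
        rwa [hmin] at this)
    refine ⟨c, m, hc, hm, ?_⟩
    filter_upwards [h] with n hn
    refine hn.trans ?_
    have : a (fun w => SumsC 𝒬 (fun i => ks (min i (N - 1))) N (vl w)) (n + m) ≤
        a (fun w => SumsC 𝒬 ks N (vl w)) (n + m) := by
      unfold a
      apply Finset.card_le_card
      intro w hw
      rw [mem_K] at hw ⊢
      exact ⟨hw.1, hw.2.1, SumsC_congr heq hw.2.2⟩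
    exact_mod_cast this

end KN.KQ
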