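import Pool.Agent.TH945.KQ.Defs
import Pool.Agent.H246K3.YOVER
import Pool.Agent.H246K3.YZERO

/-!
# Many disjoint blocks in one word
-/

set_option autoImplicit false

namespace KN.KQ

open Finset Filter Topology
open scoped Classical

namespace OV

open KN.K3YOVER

/-- all polygons -/
abbrev TT0 : List V → Prop := fun _ => True

/-- a block of type `i` in the word `w`, with room -/
def VB (T L : ℕ) (v : ℕ → List Dir) (w : List Dir) (i : ℕ) (d f : Dir) (l1 l2 : List Dir) :
    Prop :=
  w = l1 ++ (blk T (v i)).map (rt d f) ++ l2 ∧ perp d f ∧ RmD T L d f (l1 ++ f :: l2) (pos l2)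

theorem szw_ne (T : ℕ) (v : ℕ → List Dir) (s : Sz) : 0 < (szw T v s).length := by
  cases s with
  | lt f => rw [len_lt]; exact one_pos
  | bl i d f => rw [len_bl]; exact blk_pos T (v i)

theorem vb_of {𝒬 : List V → Prop} {T L : ℕ} {v : ℕ → List Dir} {W A B : List Sz} {i : ℕ}
    {d f : Dir} (hV : VaZ 𝒬 T L v W) (h : W = A ++ .bl i d f :: B) :
    VB T L v (EZ T v W) i d f (EZ T v A) (EZ T v B) := by
  obtain ⟨h1, h2⟩ := hV.room A B i d f h
  refine ⟨?_, h1, h2⟩
  rw [h, EZ_append, EZ_cons]
  simp [szw]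

theorem lab_append (A B : List Sz) : lab (A ++ B) = lab A ++ lab B := by
  unfold lab
  rw [List.filterMap_append]

theorem lab_bl (i : ℕ) (d f : Dir) (B : List Sz) : lab (.bl i d f :: B) = i :: lab B := by
  unfold lab
  rw [List.filterMap_cons]

theorem lab_nil_of {C : List Sz} (h : ∀ A B i d f, C ≠ A ++ .bl i d f :: B) : lab C = [] := by
  induction C with
  | nil => rfl
  | cons s C ih =>
    cases s with
    | lt f =>
      have := ih (fun A B i d f' hC => h (.lt f :: A) B i d f' (by rw [hC]; rfl))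
      unfold lab at this ⊢
      rw [List.filterMap_cons_none rfl]
      exact this
    | bl i d f => exact absurd rfl (h [] C i d f)

/-- the middle part contains no block -/
theorem main' (T : ℕ) (v : ℕ → List Dir) (W₀ : List Sz) (l1 I l2 : List Dir)
    (hI : 0 < I.length) (hW : EZ T v W₀ = l1 ++ I ++ l2)
    (hb : ∀ A B i d f, W₀ = A ++ .bl i d f :: B →
      ¬ (l1.length < (EZ T v A).length + (blk T (v i)).length ∧
        (EZ T v A).length < l1.length + I.length)) :
    ∃ X C Z, W₀ = X ++ C ++ Z ∧ EZ T v X = l1 ∧ EZ T v Z = l2 ∧ BZ C = I ∧ EZ T v C = I ∧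
      lab C = [] := by
  obtain ⟨X, C, Z, h1, h2, h3, h4⟩ := main T v W₀ l1 I l2 hI hW hb
  have h5 : EZ T v C = I := by
    rw [h1, EZ_append, EZ_append, h2, h3] at hW
    exact List.append_cancel_left (List.append_cancel_right hW)
  refine ⟨X, C, Z, h1, h2, h3, h4, h5, lab_nil_of ?_⟩
  intro A B i d f hAB
  apply hb (X ++ A) (B ++ Z) i d f (by rw [h1, hAB]; simp)
  have h6 : (EZ T v C).length =
      (EZ T v A).length + ((blk T (v i)).length + (EZ T v B).length) := by
    rw [hAB, EZ_append, EZ_cons, List.length_append, List.length_append, len_bl]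
  have h7 := blk_pos T (v i)
  rw [EZ_append, List.length_append, h2]
  rw [h5] at h6
  omega

theorem hrepx (n : ℕ) : pos (List.replicate n .xm) = (-(n : ℤ), 0, 0) := by
  induction n with
  | zero => rfl
  | succ n ih =>
    rw [List.replicate_succ, pos, ih]
    simp only [vec, Prod.mk_add_mk, Prod.mk.injEq]
    push_cast
    refine ⟨by ring, by simp, by simp⟩

theorem hrepp (n : ℕ) : pos (List.replicate n .xp) = ((n : ℤ), 0, 0) := by
  induction n with
  | zero => rfl
  | succ n ih =>
    rw [List.replicate_succ, pos, ih]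
    simp only [vec, Prod.mk_add_mk, Prod.mk.injEq]
    push_cast
    refine ⟨by ring, by simp, by simp⟩

theorem posI (hrtc : T_rtc) {T L Bd : ℕ} {v : ℕ → List Dir} (hv : SmB L Bd v) (i : ℕ)
    {d f : Dir} (hperp : perp d f) : pos ((blk T (v i)).map (rt d f)) = vec f := by
  have hposv : pos (v i) = (0, 0, 1) := by
    have h1 := (hv i).1.1.2.1
    simp only [pos] at h1
    have : pos (v i) = - vec .zm := eq_neg_of_add_eq_zero_left h1
    rw [this]; rfl
  have hposb : pos (blk T (v i)) = vec .zp := by
    rw [blk, pos_append, pos_append, hrepx, hrepp, hposv]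
    simp [vec]
  obtain ⟨_, _, hpp, _⟩ := hrtc d f hperp
  rw [(hpp _).1, hposb]
  simp [Rp, vec]

theorem BZ_len (W : List Sz) : (BZ W).length = W.length := by simp [BZ]

theorem ne_of_len {l : List Dir} (h : 0 < l.length) : l ≠ [] := by
  rintro rfl
  simp at h

/-- one more block -/
theorem add (hrep : T_Wrep) (hrtc : T_rtc) {T L Bd : ℕ} {v : ℕ → List Dir} (hv : SmB L Bd v)
    {W : List Sz} (hV : VaZ TT0 T L v W) {i : ℕ} {d f : Dir} {l1 l2 : List Dir}
    (hlen : Bd + 2 * T + 3 ≤ W.length)
    (hB : VB T L v (EZ T v W) i d f l1 l2)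
    (hdis : ∀ A B i' d' f', W = A ++ .bl i' d' f' :: B →
      ¬ (l1.length < (EZ T v A).length + (blk T (v i')).length ∧
        (EZ T v A).length < l1.length + (blk T (v i)).length)) :
    ∃ X C Z, W = X ++ C ++ Z ∧ EZ T v X = l1 ∧ EZ T v Z = l2 ∧ lab C = [] ∧
      EZ T v C = (blk T (v i)).map (rt d f) ∧ C.length = (blk T (v i)).length ∧
      EZ T v (X ++ .bl i d f :: Z) = EZ T v W ∧ VaZ TT0 T L v (X ++ .bl i d f :: Z) := by
  obtain ⟨hw, hperp, hroom⟩ := hB
  have hpos := blk_pos T (v i)
  obtain ⟨X, C, Z, h1, h2, h3, h4, h5, h6⟩ := main' T v W l1 ((blk T (v i)).map (rt d f)) l2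
    (by simpa using hpos) hw (by simpa using hdis)
  have hClen : C.length = (blk T (v i)).length := by
    rw [← BZ_len, h4]; simp
  have hE : EZ T v (X ++ .bl i d f :: Z) = EZ T v W := by
    rw [h1, EZ_append, EZ_cons, EZ_append, EZ_append, h5]
    simp [szw]
  refine ⟨X, C, Z, h1, h2, h3, h6, h5, hClen, hE, trivial, ?_, ?_, ?_⟩
  · -- base
    rw [BZ_append, BZ_cons]
    have hle := blk_le hv T i
    apply (hrep (BZ X) (BZ Z) ((blk T (v i)).map (rt d f)) f (posI hrtc hv i hperp)
      (ne_of_len (by simpa using hpos))).2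
    · rw [← h4, ← BZ_append, ← BZ_append, ← h1]
      exact hV.base
    · have h7 := congrArg List.length h1
      simp only [List.length_append, List.length_cons, BZ_len] at h7 ⊢
      omega
  · rw [hE]; exact hV.ext
  · intro A' B' i' d' f' he
    rcases List.append_eq_append_iff.1 he with ⟨K, hK1, hK2⟩ | ⟨K, hK1, hK2⟩
    · -- `A' = X ++ K`, `bl :: Z = K ++ bl' :: B'`
      cases K with
      | nil =>
        rw [List.nil_append, List.cons.injEq] at hK2
        obtain ⟨hK3, hK4⟩ := hK2
        rw [Sz.bl.injEq] at hK3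
        obtain ⟨rfl, rfl, rfl⟩ := hK3
        rw [List.append_nil] at hK1
        subst hK1 hK4
        refine ⟨hperp, ?_⟩
        rw [h2, h3]
        exact hroom
      | cons s K =>
        rw [List.cons_append, List.cons.injEq] at hK2
        obtain ⟨rfl, rfl⟩ := hK2
        subst hK1
        have h8 := hV.room (X ++ C ++ K) B' i' d' f' (by rw [h1]; simp)
        refine ⟨h8.1, ?_⟩
        have h9 : EZ T v (X ++ .bl i d f :: K) = EZ T v (X ++ C ++ K) := by
          rw [EZ_append, EZ_cons, EZ_append, EZ_append, h5]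
          simp [szw]
        rw [h9]
        exact h8.2
    · -- `X = A' ++ K`
      cases K with
      | nil =>
        rw [List.nil_append, List.cons.injEq] at hK2
        obtain ⟨hK3, hK4⟩ := hK2
        rw [Sz.bl.injEq] at hK3
        obtain ⟨rfl, rfl, rfl⟩ := hK3
        rw [List.append_nil] at hK1
        subst hK1 hK4
        refine ⟨hperp, ?_⟩
        rw [h2, h3]
        exact hroom
      | cons s K =>
        rw [List.cons_append, List.cons.injEq] at hK2
        obtain ⟨rfl, rfl⟩ := hK2
        subst hK1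
        have h8 := hV.room A' (K ++ C ++ Z) i' d' f' (by rw [h1]; simp)
        refine ⟨h8.1, ?_⟩
        have h9 : EZ T v (K ++ .bl i d f :: Z) = EZ T v (K ++ C ++ Z) := by
          rw [EZ_append, EZ_cons, EZ_append, EZ_append, h5]
          simp [szw]
        rw [h9]
        exact h8.2

/-- a word with many prescribed blocks -/
theorem family (hrep : T_Wrep) (hrtc : T_rtc) {T L Bd : ℕ} {v : ℕ → List Dir}
    (hv : SmB L Bd v) (b : List Dir) (hb : SAP b) (M : ℕ) (d f : ℕ → Dir)
    (l1 l2 : ℕ → List Dir) (hVB : ∀ j < M, VB T L v b j (d j) (f j) (l1 j) (l2 j))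
    (hdis : ∀ j < M, ∀ k < M, j ≠ k →
      (l1 j).length + (blk T (v j)).length ≤ (l1 k).length ∨
      (l1 k).length + (blk T (v k)).length ≤ (l1 j).length)
    (hlen : M * (Bd + 2 * T) + 3 ≤ b.length) : ∀ m : ℕ, m ≤ M →
    ∃ W : List Sz, EZ T v W = b ∧ (lab W).Perm (List.range m) ∧ VaZ TT0 T L v W ∧
      b.length ≤ W.length + m * (Bd + 2 * T) ∧
      ∀ A B i d' f', W = A ++ .bl i d' f' :: B → i < m ∧ (EZ T v A).length = (l1 i).length := by
  intro m
  induction m with
  | zero =>
    intro _
    have hnb : ∀ (A B : List Sz) (i : ℕ) (d' f' : Dir), b.map Sz.lt ≠ A ++ .bl i d' f' :: B := by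
      intro A B i d' f' h
      have h1 : Sz.bl i d' f' ∈ b.map Sz.lt := by rw [h]; simp
      obtain ⟨e, _, he⟩ := List.mem_map.1 h1
      exact absurd he (by simp)
    refine ⟨b.map Sz.lt, K3YZERO.EZ_map T v b, ?_, ⟨trivial, ?_, ?_, ?_⟩, by simp, ?_⟩
    · rw [K3YZERO.lab_map]; rfl
    · rw [K3YZERO.BZ_map]; exact hb
    · rw [K3YZERO.EZ_map]; exact hb
    · intro A B i d' f' h
      exact absurd h (hnb A B i d' f')
    · intro A B i d' f' h
      exact absurd h (hnb A B i d' f')
  | succ m ih =>
    intro hm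
    obtain ⟨W, hE, hlab, hV, hl, hpos⟩ := ih (by omega)
    have hmM : (m + 1) * (Bd + 2 * T) ≤ M * (Bd + 2 * T) := Nat.mul_le_mul_right _ hm
    have hm1 : (m + 1) * (Bd + 2 * T) = m * (Bd + 2 * T) + (Bd + 2 * T) := by ring
    have hVBm := hVB m (by omega)
    rw [← hE] at hVBm
    obtain ⟨X, C, Z, h1, h2, h3, h4, h5, h6, h7, h8⟩ := add hrep hrtc hv hV (by omega) hVBm
      (by
        rintro A B i' d' f' h ⟨ha, hb'⟩
        obtain ⟨hi, hp⟩ := hpos A B i' d' f' h
        rw [hp] at ha hb'
        rcases hdis i' (by omega) m (by omega) (by omega) with h9 | h9 <;> omega)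
    refine ⟨X ++ .bl m (d m) (f m) :: Z, by rw [h7, hE], ?_, h8, ?_, ?_⟩
    · rw [lab_append, lab_bl]
      rw [h1, lab_append, lab_append, h4, List.append_nil] at hlab
      refine List.perm_middle.trans ?_
      rw [List.range_succ]
      exact (hlab.cons m).trans (List.perm_append_singleton m (List.range m)).symm
    · have h9 := congrArg List.length h1
      have h10 := blk_le hv T m
      simp only [List.length_append, List.length_cons] at h9 ⊢
      omega
    · intro A' B' i' d' f' he
      rcases List.append_eq_append_iff.1 he with ⟨K, hK1, hK2⟩ | ⟨K, hK1, hK2⟩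
      · cases K with
        | nil =>
          rw [List.nil_append, List.cons.injEq] at hK2
          obtain ⟨hK3, hK4⟩ := hK2
          rw [Sz.bl.injEq] at hK3
          obtain ⟨rfl, -, -⟩ := hK3
          rw [List.append_nil] at hK1
          subst hK1
          exact ⟨by omega, by rw [h2]⟩
        | cons s K =>
          rw [List.cons_append, List.cons.injEq] at hK2
          obtain ⟨rfl, rfl⟩ := hK2
          subst hK1
          obtain ⟨h9, h10⟩ := hpos (X ++ C ++ K) B' i' d' f' (by rw [h1]; simp)
          refine ⟨by omega, ?_⟩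
          rw [← h10, EZ_append, EZ_cons, EZ_append, EZ_append, h5]
          simp [szw]
      · cases K with
        | nil =>
          rw [List.nil_append, List.cons.injEq] at hK2
          obtain ⟨hK3, hK4⟩ := hK2
          rw [Sz.bl.injEq] at hK3
          obtain ⟨rfl, -, -⟩ := hK3
          rw [List.append_nil] at hK1
          subst hK1
          exact ⟨by omega, by rw [h2]⟩
        | cons s K =>
          rw [List.cons_append, List.cons.injEq] at hK2
          obtain ⟨rfl, rfl⟩ := hK2
          subst hK1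
          obtain ⟨h9, h10⟩ := hpos A' (K ++ C ++ Z) i' d' f' (by rw [h1]; simp)
          exact ⟨by omega, h10⟩

end OV

end KN.KQ
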