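import Pool.Agent.TH945.KQ.YOVQ

/-!
# Words with many far blocks are connected sums
-/

set_option autoImplicit false

namespace KN.KQ

open Finset Filter Topology
open scoped Classical

namespace OV

open KN.K3YOVER

theorem TT0_TC : TC TT0 := fun _ _ _ _ => trivial

/-- a block far from the blocks of `W₀` is a block of the word without blocks -/
theorem transfer (hbas : Y_bas) {T L Bd : ℕ} {v : ℕ → List Dir}
    (hv : SmB L Bd v) {W₀ : List Sz} {i : ℕ} {d f : Dir} {l1 l2 : List Dir}
    (hB : VB T L v (EZ T v W₀) i d f l1 l2)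
    (hdis : ∀ A B i' d' f', W₀ = A ++ .bl i' d' f' :: B →
      ¬ (l1.length < (EZ T v A).length + (blk T (v i')).length ∧
        (EZ T v A).length < l1.length + (blk T (v i)).length)) :
    ∃ X C Z, W₀ = X ++ C ++ Z ∧ EZ T v X = l1 ∧
      (EZ T v (X ++ C)).length = l1.length + (blk T (v i)).length ∧
      C.length = (blk T (v i)).length ∧ VB T L v (BZ W₀) i d f (BZ X) (BZ Z) := by
  obtain ⟨hw, hperp, hroom⟩ := hB
  have hpos := blk_pos T (v i)
  obtain ⟨X, C, Z, h1, h2, h3, h4, h5, h6⟩ := main' T v W₀ l1 ((blk T (v i)).map (rt d f)) l2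
    (by simpa using hpos) hw (by simpa using hdis)
  have hClen : C.length = (blk T (v i)).length := by
    rw [← BZ_len, h4]; simp
  refine ⟨X, C, Z, h1, h2, ?_, hClen, ?_, hperp, ?_⟩
  · rw [EZ_append, List.length_append, h2, h5, List.length_map]
  · rw [h1, BZ_append, BZ_append, h4]
  · have hsub : ∀ p ∈ path (BZ X ++ f :: BZ Z), p ∈ path (l1 ++ f :: l2) := by
      intro p hp
      have h := (hbas T L Bd v hv (X ++ .lt f :: Z)).2.1 p (by
        rw [BZ_append, BZ_cons]; exact hp)
      rw [EZ_append, EZ_cons, h2, h3] at h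
      simpa [szw] using h
    have hposZ : pos l2 = pos (BZ Z) := by
      rw [← h3]; exact (hbas T L Bd v hv Z).1
    rw [hposZ] at hroom
    exact ⟨fun j h1 h2 => ⟨fun h => (hroom.1 j h1 h2).1 (hsub _ h),
      fun h => (hroom.1 j h1 h2).2 (hsub _ h)⟩, fun h a b c e g hm => hroom.2 h a b c e g
        (hsub _ hm)⟩

/-- prefixes are compared by the lengths of their words -/
theorem prefix_len (T : ℕ) (v : ℕ → List Dir) {P R P' R' : List Sz} (h : P ++ R = P' ++ R')
    (hl : (EZ T v P).length ≤ (EZ T v P').length) : P.length ≤ P'.length := by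
  rcases List.append_eq_append_iff.1 h with ⟨K, hK1, -⟩ | ⟨K, hK1, -⟩
  · rw [hK1, List.length_append]; omega
  · cases K with
    | nil => rw [hK1, List.append_nil]
    | cons s K =>
      exfalso
      rw [hK1, EZ_append, List.length_append, EZ_cons, List.length_append] at hl
      have := szw_ne T v s
      omega

/-- many far blocks: the polygon without blocks is a connected sum -/
theorem ovr (hty : Y_type TT0) (hbas : Y_bas) (hrep : T_Wrep) (hrtc : T_rtc)
    {𝒬 : List V → Prop} {ks : ℕ → List V} {N M : ℕ} (hno : NoM 𝒬 ks N M) {T L Bd : ℕ}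
    {v : ℕ → List Dir} (hv : SmB L Bd v) (hs : ∀ i, Same (vl (.zm :: v i)) (ks i))
    {W₀ : List Sz} (hV₀ : VaZ 𝒬 T L v W₀) (hlen : M * (Bd + 2 * T) + 3 ≤ W₀.length)
    (σ : ℕ → ℕ) (hσ : ∀ j < M, σ j < N) (d f : ℕ → Dir) (l1 l2 : ℕ → List Dir)
    (hB : ∀ j < M, VB T L v (EZ T v W₀) (σ j) (d j) (f j) (l1 j) (l2 j))
    (hfar : ∀ j < M, ∀ A B i' d' f', W₀ = A ++ .bl i' d' f' :: B →
      (l1 j).length + (Bd + 2 * T) ≤ (EZ T v A).length ∨
      (EZ T v A).length + (Bd + 2 * T) ≤ (l1 j).length)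
    (hsep : ∀ j < M, ∀ k < M, j ≠ k → (l1 j).length + (Bd + 2 * T) ≤ (l1 k).length ∨
      (l1 k).length + (Bd + 2 * T) ≤ (l1 j).length) : False := by
  have ht : ∀ j : ℕ, ∃ X C Z : List Sz, j < M → (W₀ = X ++ C ++ Z ∧ EZ T v X = l1 j ∧
      (EZ T v (X ++ C)).length = (l1 j).length + (blk T (v (σ j))).length ∧
      C.length = (blk T (v (σ j))).length ∧ VB T L v (BZ W₀) (σ j) (d j) (f j) (BZ X) (BZ Z)) := by
    intro j
    by_cases hj : j < M
    · obtain ⟨X, C, Z, h⟩ := transfer hbas hv (hB j hj) (by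
        rintro A B i' d' f' h ⟨ha, hb⟩
        have h1 := blk_le hv T i'
        have h2 := blk_le hv T (σ j)
        rcases hfar j hj A B i' d' f' h with h3 | h3 <;> omega)
      exact ⟨X, C, Z, fun _ => h⟩
    · exact ⟨[], [], [], fun h => absurd h hj⟩
  choose X C Z hX using ht
  set v' : ℕ → List Dir := fun j => v (σ j) with hv'
  have hvv : SmB L Bd v' := fun j => hv (σ j)
  have hdis : ∀ j < M, ∀ k < M, (l1 j).length + (Bd + 2 * T) ≤ (l1 k).length →
      (BZ (X j)).length + (blk T (v' j)).length ≤ (BZ (X k)).length := by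
    intro j hj k hk h
    obtain ⟨a1, a2, a3, a4, -⟩ := hX j hj
    obtain ⟨b1, b2, -, -, -⟩ := hX k hk
    have h1 := blk_le hv T (σ j)
    have h2 : (X j ++ C j).length ≤ (X k).length := by
      refine prefix_len T v (R := Z j) (R' := C k ++ Z k) ?_ ?_
      · rw [← a1, b1, List.append_assoc]
      · rw [a3, b2]; omega
    rw [List.length_append, a4] at h2
    rw [BZ_len, BZ_len]
    exact h2
  obtain ⟨W, hE, hlab, hV, -, -⟩ := family hrep hrtc hvv (BZ W₀) hV₀.base M d f
    (fun j => BZ (X j)) (fun j => BZ (Z j)) (fun j hj => (hX j hj).2.2.2.2)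
    (by
      intro j hj k hk hjk
      rcases hsep j hj k hk hjk with h | h
      · exact Or.inl (hdis j hj k hk h)
      · exact Or.inr (hdis k hk j hj h))
    (by rw [BZ_len]; exact hlen) M le_rfl
  have hS := hty (fun j => ks (σ j)) T L Bd v' hvv M (fun i _ => hs (σ i)) W hlab hV
  rw [hE] at hS
  exact hno σ hσ _ hV₀.u hS

end OV

end KN.KQ
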